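import Pool.Agent.Helper26.KN.Goals

namespace KN.Asm

open KN Finset

/-- weight of a configuration -/
theorem div_form {a b c Z : ℝ} (hZ : 0 < Z) (h : a * Z ≤ b * c) : a / Z ≤ (b / Z) * (c / Z) := by
  rw [div_mul_div_comm, div_le_div_iff₀ hZ (by positivity)]
  nlinarith [mul_le_mul_of_nonneg_right h hZ.le]

theorem main (h : G_FRZ) (V : Type) [Fintype V] [DecidableEq V] (G : SimpleGraph V)
    [DecidableRel G.Adj] (p q : ℝ) (hp : 0 < p) (hp1 : p < 1) (hq : 0 < q) (hq1 : q < 1)
    (a : Sym2 V) (ha : a ∈ G.edgeFinset) (b : Sym2 V) (hb : b ∈ G.edgeFinset) (hab : a ≠ b)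
    (r : V) (hra : r ∈ a) (hrG : ∀ u v : V, u ≠ v → u ≠ r → v ≠ r → G.Adj u v)
    (hrb : r ∈ b ∨ ∀ v ∈ a, v ∉ b) :
        (∑ S ∈ G.edgeFinset.powerset with (a ∈ S ∧ b ∈ S),
            p ^ S.card * (1 - p) ^ (G.edgeFinset.card - S.card) *
              q ^ Nat.card (SimpleGraph.fromEdgeSet (↑S : Set (Sym2 V))).ConnectedComponent) /
          (∑ S ∈ G.edgeFinset.powerset,
            p ^ S.card * (1 - p) ^ (G.edgeFinset.card - S.card) *
              q ^ Nat.card (SimpleGraph.fromEdgeSet (↑S : Set (Sym2 V))).ConnectedComponent)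
        ≤
        ((∑ S ∈ G.edgeFinset.powerset with a ∈ S,
            p ^ S.card * (1 - p) ^ (G.edgeFinset.card - S.card) *
              q ^ Nat.card (SimpleGraph.fromEdgeSet (↑S : Set (Sym2 V))).ConnectedComponent) /
          (∑ S ∈ G.edgeFinset.powerset,
            p ^ S.card * (1 - p) ^ (G.edgeFinset.card - S.card) *
              q ^ Nat.card (SimpleGraph.fromEdgeSet (↑S : Set (Sym2 V))).ConnectedComponent)) *
        ((∑ S ∈ G.edgeFinset.powerset with b ∈ S,
            p ^ S.card * (1 - p) ^ (G.edgeFinset.card - S.card) *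
              q ^ Nat.card (SimpleGraph.fromEdgeSet (↑S : Set (Sym2 V))).ConnectedComponent) /
          (∑ S ∈ G.edgeFinset.powerset,
            p ^ S.card * (1 - p) ^ (G.edgeFinset.card - S.card) *
              q ^ Nat.card (SimpleGraph.fromEdgeSet (↑S : Set (Sym2 V))).ConnectedComponent)) := by
  have hw : ∀ S : Finset (Sym2 V), 0 < p ^ S.card * (1 - p) ^ (G.edgeFinset.card - S.card) *
      q ^ Nat.card (SimpleGraph.fromEdgeSet (↑S : Set (Sym2 V))).ConnectedComponent := by
    intro S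
    have : 0 < 1 - p := by linarith
    positivity
  refine div_form ?_ (h V G r p q hrG hp hp1 hq hq1 a ha b hb hab hra hrb)
  exact Finset.sum_pos (fun S _ => hw S) ⟨∅, by simp⟩

theorem complete (h : G_FRZ) (V : Type) [Fintype V] [DecidableEq V] (G : SimpleGraph V)
    [DecidableRel G.Adj] (p q : ℝ) (hp : 0 < p) (hp1 : p < 1) (hq : 0 < q) (hq1 : q < 1)
    (hG : ∀ u v : V, u ≠ v → G.Adj u v)
    (a : Sym2 V) (ha : a ∈ G.edgeFinset) (b : Sym2 V) (hb : b ∈ G.edgeFinset) (hab : a ≠ b) :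
        (∑ S ∈ G.edgeFinset.powerset with (a ∈ S ∧ b ∈ S),
            p ^ S.card * (1 - p) ^ (G.edgeFinset.card - S.card) *
              q ^ Nat.card (SimpleGraph.fromEdgeSet (↑S : Set (Sym2 V))).ConnectedComponent) /
          (∑ S ∈ G.edgeFinset.powerset,
            p ^ S.card * (1 - p) ^ (G.edgeFinset.card - S.card) *
              q ^ Nat.card (SimpleGraph.fromEdgeSet (↑S : Set (Sym2 V))).ConnectedComponent)
        ≤
        ((∑ S ∈ G.edgeFinset.powerset with a ∈ S,
            p ^ S.card * (1 - p) ^ (G.edgeFinset.card - S.card) *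
              q ^ Nat.card (SimpleGraph.fromEdgeSet (↑S : Set (Sym2 V))).ConnectedComponent) /
          (∑ S ∈ G.edgeFinset.powerset,
            p ^ S.card * (1 - p) ^ (G.edgeFinset.card - S.card) *
              q ^ Nat.card (SimpleGraph.fromEdgeSet (↑S : Set (Sym2 V))).ConnectedComponent)) *
        ((∑ S ∈ G.edgeFinset.powerset with b ∈ S,
            p ^ S.card * (1 - p) ^ (G.edgeFinset.card - S.card) *
              q ^ Nat.card (SimpleGraph.fromEdgeSet (↑S : Set (Sym2 V))).ConnectedComponent) /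
          (∑ S ∈ G.edgeFinset.powerset,
            p ^ S.card * (1 - p) ^ (G.edgeFinset.card - S.card) *
              q ^ Nat.card (SimpleGraph.fromEdgeSet (↑S : Set (Sym2 V))).ConnectedComponent)) := by
  by_cases hd : ∀ v ∈ a, v ∉ b
  · obtain ⟨r, hr⟩ : ∃ r, r ∈ a := ⟨a.out.1, Sym2.out_fst_mem a⟩
    exact main h V G p q hp hp1 hq hq1 a ha b hb hab r hr (fun u v huv _ _ => hG u v huv)
      (Or.inr hd)
  · push Not at hd
    obtain ⟨r, hr, hrb⟩ := hd
    exact main h V G p q hp hp1 hq hq1 a ha b hb hab r hr (fun u v huv _ _ => hG u v huv)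
      (Or.inl hrb)

end KN.Asm
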