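import Mathlib

/-! Polynomial certificates for the final inequality (generated). -/

namespace KN.PkFIN

theorem c0_0_aux (q r : ℝ) (hq : 0 ≤ q) (hr : 0 ≤ r) :
    0 ≤ q ^ 2 * ((2213/14400) * q ^ 0 * r ^ 7 + (361051/129600) * q ^ 1 * r ^ 6 + (65495287/4320000) * q ^ 2 * r ^ 5 + (28416774277/777600000) * q ^ 3 * r ^ 4 + (68319311279/1555200000) * q ^ 4 * r ^ 3 + (9986294243/388800000) * q ^ 5 * r ^ 2 + (200007713/34560000) * q ^ 6 * r ^ 1 + (11219/384000) * q ^ 7 * r ^ 0) := by positivity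

theorem c0_0 (q : ℝ) (hq : 0 ≤ q) (hq1 : q ≤ 1) :
    0 ≤ (2213/14400) * q ^ 2 + (3463/2025) * q ^ 3 + (7226987/4320000) * q ^ 4 + (-(2216964023/777600000)) * q ^ 5 + (-(168772193/172800000)) * q ^ 6 + (175597259/1555200000) * q ^ 7 + (5603803/28800000) * q ^ 8 + (2476099/194400000) * q ^ 9 := by
  have h := c0_0_aux q (1 - q) hq (by linarith)
  have e : q ^ 2 * ((2213/14400) * q ^ 0 * (1 - q) ^ 7 + (361051/129600) * q ^ 1 * (1 - q) ^ 6 + (65495287/4320000) * q ^ 2 * (1 - q) ^ 5 + (28416774277/777600000) * q ^ 3 * (1 - q) ^ 4 + (68319311279/1555200000) * q ^ 4 * (1 - q) ^ 3 + (9986294243/388800000) * q ^ 5 * (1 - q) ^ 2 + (200007713/34560000) * q ^ 6 * (1 - q) ^ 1 + (11219/384000) * q ^ 7 * (1 - q) ^ 0) =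
    (2213/14400) * q ^ 2 + (3463/2025) * q ^ 3 + (7226987/4320000) * q ^ 4 + (-(2216964023/777600000)) * q ^ 5 + (-(168772193/172800000)) * q ^ 6 + (175597259/1555200000) * q ^ 7 + (5603803/28800000) * q ^ 8 + (2476099/194400000) * q ^ 9 := by ring
  rw [e] at h
  exact h

theorem c0_1_aux (q r : ℝ) (hq : 0 ≤ q) (hr : 0 ≤ r) :
    0 ≤ q ^ 1 * ((2/3) * q ^ 0 * r ^ 7 + (1037/135) * q ^ 1 * r ^ 6 + (1720721/40500) * q ^ 2 * r ^ 5 + (878994007/7776000) * q ^ 3 * r ^ 4 + (2367097171/15552000) * q ^ 4 * r ^ 3 + (396204407/3888000) * q ^ 5 * r ^ 2 + (456005449/15552000) * q ^ 6 * r ^ 1 + (366689/172800) * q ^ 7 * r ^ 0) := by positivity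

theorem c0_1 (q : ℝ) (hq : 0 ≤ q) (hq1 : q ≤ 1) :
    0 ≤ (2/3) * q ^ 1 + (407/135) * q ^ 2 + (421121/40500) * q ^ 3 + (-(58370153/7776000)) * q ^ 4 + (-(16730849/3110400)) * q ^ 5 + (-(1906441/15552000)) * q ^ 6 + (1529557/1555200) * q ^ 7 + (130321/1944000) * q ^ 8 := by
  have h := c0_1_aux q (1 - q) hq (by linarith)
  have e : q ^ 1 * ((2/3) * q ^ 0 * (1 - q) ^ 7 + (1037/135) * q ^ 1 * (1 - q) ^ 6 + (1720721/40500) * q ^ 2 * (1 - q) ^ 5 + (878994007/7776000) * q ^ 3 * (1 - q) ^ 4 + (2367097171/15552000) * q ^ 4 * (1 - q) ^ 3 + (396204407/3888000) * q ^ 5 * (1 - q) ^ 2 + (456005449/15552000) * q ^ 6 * (1 - q) ^ 1 + (366689/172800) * q ^ 7 * (1 - q) ^ 0) =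
    (2/3) * q ^ 1 + (407/135) * q ^ 2 + (421121/40500) * q ^ 3 + (-(58370153/7776000)) * q ^ 4 + (-(16730849/3110400)) * q ^ 5 + (-(1906441/15552000)) * q ^ 6 + (1529557/1555200) * q ^ 7 + (130321/1944000) * q ^ 8 := by ring
  rw [e] at h
  exact h

theorem c0_2_aux (q r : ℝ) (hq : 0 ≤ q) (hr : 0 ≤ r) :
    0 ≤ q ^ 1 * ((4/3) * q ^ 0 * r ^ 6 + (15269/600) * q ^ 1 * r ^ 5 + (20298199/194400) * q ^ 2 * r ^ 4 + (69634879/388800) * q ^ 3 * r ^ 3 + (774971/5400) * q ^ 4 * r ^ 2 + (19487437/388800) * q ^ 5 * r ^ 1 + (215879/38880) * q ^ 6 * r ^ 0) := by positivity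

theorem c0_2 (q : ℝ) (hq : 0 ≤ q) (hq1 : q ≤ 1) :
    0 ≤ (4/3) * q ^ 1 + (10469/600) * q ^ 2 + (-(549581/194400)) * q ^ 3 + (-(4175593/388800)) * q ^ 4 + (-(77273/43200)) * q ^ 5 + (385909/194400) * q ^ 6 + (6859/48600) * q ^ 7 := by
  have h := c0_2_aux q (1 - q) hq (by linarith)
  have e : q ^ 1 * ((4/3) * q ^ 0 * (1 - q) ^ 6 + (15269/600) * q ^ 1 * (1 - q) ^ 5 + (20298199/194400) * q ^ 2 * (1 - q) ^ 4 + (69634879/388800) * q ^ 3 * (1 - q) ^ 3 + (774971/5400) * q ^ 4 * (1 - q) ^ 2 + (19487437/388800) * q ^ 5 * (1 - q) ^ 1 + (215879/38880) * q ^ 6 * (1 - q) ^ 0) =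
    (4/3) * q ^ 1 + (10469/600) * q ^ 2 + (-(549581/194400)) * q ^ 3 + (-(4175593/388800)) * q ^ 4 + (-(77273/43200)) * q ^ 5 + (385909/194400) * q ^ 6 + (6859/48600) * q ^ 7 := by ring
  rw [e] at h
  exact h

theorem c0_3_aux (q r : ℝ) (hq : 0 ≤ q) (hr : 0 ≤ r) :
    0 ≤ q ^ 1 * ((436/45) * q ^ 0 * r ^ 5 + (35927/648) * q ^ 1 * r ^ 4 + (2248171/19440) * q ^ 2 * r ^ 3 + (261601/2430) * q ^ 3 * r ^ 2 + (849457/19440) * q ^ 4 * r ^ 1 + (11825/1944) * q ^ 5 * r ^ 0) := by positivity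

theorem c0_3 (q : ℝ) (hq : 0 ≤ q) (hq1 : q ≤ 1) :
    0 ≤ (436/45) * q ^ 1 + (4535/648) * q ^ 2 + (-(179549/19440)) * q ^ 3 + (-(13673/3888)) * q ^ 4 + (6479/3240) * q ^ 5 + (361/2430) * q ^ 6 := by
  have h := c0_3_aux q (1 - q) hq (by linarith)
  have e : q ^ 1 * ((436/45) * q ^ 0 * (1 - q) ^ 5 + (35927/648) * q ^ 1 * (1 - q) ^ 4 + (2248171/19440) * q ^ 2 * (1 - q) ^ 3 + (261601/2430) * q ^ 3 * (1 - q) ^ 2 + (849457/19440) * q ^ 4 * (1 - q) ^ 1 + (11825/1944) * q ^ 5 * (1 - q) ^ 0) =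
    (436/45) * q ^ 1 + (4535/648) * q ^ 2 + (-(179549/19440)) * q ^ 3 + (-(13673/3888)) * q ^ 4 + (6479/3240) * q ^ 5 + (361/2430) * q ^ 6 := by ring
  rw [e] at h
  exact h

theorem c0_4_aux (q r : ℝ) (hq : 0 ≤ q) (hr : 0 ≤ r) :
    0 ≤ q ^ 0 * (1 * q ^ 0 * r ^ 5 + (403/36) * q ^ 1 * r ^ 4 + (20693/648) * q ^ 2 * r ^ 3 + (17453/486) * q ^ 3 * r ^ 2 + (32669/1944) * q ^ 4 * r ^ 1 + (2635/972) * q ^ 5 * r ^ 0) := by positivity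

theorem c0_4 (q : ℝ) (hq : 0 ≤ q) (hq1 : q ≤ 1) :
    0 ≤ 1 * q ^ 0 + (223/36) * q ^ 1 + (-(1843/648)) * q ^ 2 + (-(5293/1944)) * q ^ 3 + (977/972) * q ^ 4 + (19/243) * q ^ 5 := by
  have h := c0_4_aux q (1 - q) hq (by linarith)
  have e : q ^ 0 * (1 * q ^ 0 * (1 - q) ^ 5 + (403/36) * q ^ 1 * (1 - q) ^ 4 + (20693/648) * q ^ 2 * (1 - q) ^ 3 + (17453/486) * q ^ 3 * (1 - q) ^ 2 + (32669/1944) * q ^ 4 * (1 - q) ^ 1 + (2635/972) * q ^ 5 * (1 - q) ^ 0) =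
    1 * q ^ 0 + (223/36) * q ^ 1 + (-(1843/648)) * q ^ 2 + (-(5293/1944)) * q ^ 3 + (977/972) * q ^ 4 + (19/243) * q ^ 5 := by ring
  rw [e] at h
  exact h

theorem c0_5_aux (q r : ℝ) (hq : 0 ≤ q) (hr : 0 ≤ r) :
    0 ≤ q ^ 0 * (1 * q ^ 0 * r ^ 4 + (73/18) * q ^ 1 * r ^ 3 + (146/27) * q ^ 2 * r ^ 2 + (1385/486) * q ^ 3 * r ^ 1 + (125/243) * q ^ 4 * r ^ 0) := by positivity

theorem c0_5 (q : ℝ) (hq : 0 ≤ q) (hq1 : q ≤ 1) :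
    0 ≤ 1 * q ^ 0 + (1/18) * q ^ 1 + (-(41/54)) * q ^ 2 + (49/243) * q ^ 3 + (4/243) * q ^ 4 := by
  have h := c0_5_aux q (1 - q) hq (by linarith)
  have e : q ^ 0 * (1 * q ^ 0 * (1 - q) ^ 4 + (73/18) * q ^ 1 * (1 - q) ^ 3 + (146/27) * q ^ 2 * (1 - q) ^ 2 + (1385/486) * q ^ 3 * (1 - q) ^ 1 + (125/243) * q ^ 4 * (1 - q) ^ 0) =
    1 * q ^ 0 + (1/18) * q ^ 1 + (-(41/54)) * q ^ 2 + (49/243) * q ^ 3 + (4/243) * q ^ 4 := by ring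
  rw [e] at h
  exact h

theorem c1_0_aux (q r : ℝ) (hq : 0 ≤ q) (hr : 0 ≤ r) :
    0 ≤ q ^ 2 * ((197/3600) * q ^ 0 * r ^ 5 + (62903/4800) * q ^ 1 * r ^ 4 + (225924271/4320000) * q ^ 2 * r ^ 3 + (655920893/8640000) * q ^ 3 * r ^ 2 + (395975963/8640000) * q ^ 4 * r ^ 1 + (2629679/288000) * q ^ 5 * r ^ 0) := by positivity

theorem c1_0 (q : ℝ) (hq : 0 ≤ q) (hq1 : q ≤ 1) :
    0 ≤ (197/3600) * q ^ 2 + (184769/14400) * q ^ 3 + (1837471/4320000) * q ^ 4 + (-(25000333/8640000)) * q ^ 5 + (-(10857797/8640000)) * q ^ 6 + (-(130321/4320000)) * q ^ 7 := by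
  have h := c1_0_aux q (1 - q) hq (by linarith)
  have e : q ^ 2 * ((197/3600) * q ^ 0 * (1 - q) ^ 5 + (62903/4800) * q ^ 1 * (1 - q) ^ 4 + (225924271/4320000) * q ^ 2 * (1 - q) ^ 3 + (655920893/8640000) * q ^ 3 * (1 - q) ^ 2 + (395975963/8640000) * q ^ 4 * (1 - q) ^ 1 + (2629679/288000) * q ^ 5 * (1 - q) ^ 0) =
    (197/3600) * q ^ 2 + (184769/14400) * q ^ 3 + (1837471/4320000) * q ^ 4 + (-(25000333/8640000)) * q ^ 5 + (-(10857797/8640000)) * q ^ 6 + (-(130321/4320000)) * q ^ 7 := by ring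
  rw [e] at h
  exact h

theorem c1_1_aux (q r : ℝ) (hq : 0 ≤ q) (hr : 0 ≤ r) :
    0 ≤ q ^ 0 * (6 * q ^ 0 * r ^ 6 + (538/15) * q ^ 1 * r ^ 5 + (9799/80) * q ^ 2 * r ^ 4 + (28319953/108000) * q ^ 3 * r ^ 3 + (33762487/108000) * q ^ 4 * r ^ 2 + (359983/2000) * q ^ 5 * r ^ 1 + (198989/5400) * q ^ 6 * r ^ 0) := by positivity

theorem c1_1 (q : ℝ) (hq : 0 ≤ q) (hq1 : q ≤ 1) :
    0 ≤ 6 * q ^ 0 + (-(2/15)) * q ^ 1 + (7957/240) * q ^ 2 + (1181353/108000) * q ^ 3 + (-(26296/3375)) * q ^ 4 + (-(560633/108000)) * q ^ 5 + (-(6859/54000)) * q ^ 6 := by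
  have h := c1_1_aux q (1 - q) hq (by linarith)
  have e : q ^ 0 * (6 * q ^ 0 * (1 - q) ^ 6 + (538/15) * q ^ 1 * (1 - q) ^ 5 + (9799/80) * q ^ 2 * (1 - q) ^ 4 + (28319953/108000) * q ^ 3 * (1 - q) ^ 3 + (33762487/108000) * q ^ 4 * (1 - q) ^ 2 + (359983/2000) * q ^ 5 * (1 - q) ^ 1 + (198989/5400) * q ^ 6 * (1 - q) ^ 0) =
    6 * q ^ 0 + (-(2/15)) * q ^ 1 + (7957/240) * q ^ 2 + (1181353/108000) * q ^ 3 + (-(26296/3375)) * q ^ 4 + (-(560633/108000)) * q ^ 5 + (-(6859/54000)) * q ^ 6 := by ring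
  rw [e] at h
  exact h

theorem c1_2_aux (q r : ℝ) (hq : 0 ≤ q) (hr : 0 ≤ r) :
    0 ≤ q ^ 0 * (3 * q ^ 0 * r ^ 5 + (497/12) * q ^ 1 * r ^ 4 + (108466/675) * q ^ 2 * r ^ 3 + (2788999/10800) * q ^ 3 * r ^ 2 + (1912019/10800) * q ^ 4 * r ^ 1 + (44141/1080) * q ^ 5 * r ^ 0) := by positivity

theorem c1_2 (q : ℝ) (hq : 0 ≤ q) (hq1 : q ≤ 1) :
    0 ≤ 3 * q ^ 0 + (317/12) * q ^ 1 + (16891/675) * q ^ 2 + (-(57569/10800)) * q ^ 3 + (-(28937/3600)) * q ^ 4 + (-(361/1800)) * q ^ 5 := by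
  have h := c1_2_aux q (1 - q) hq (by linarith)
  have e : q ^ 0 * (3 * q ^ 0 * (1 - q) ^ 5 + (497/12) * q ^ 1 * (1 - q) ^ 4 + (108466/675) * q ^ 2 * (1 - q) ^ 3 + (2788999/10800) * q ^ 3 * (1 - q) ^ 2 + (1912019/10800) * q ^ 4 * (1 - q) ^ 1 + (44141/1080) * q ^ 5 * (1 - q) ^ 0) =
    3 * q ^ 0 + (317/12) * q ^ 1 + (16891/675) * q ^ 2 + (-(57569/10800)) * q ^ 3 + (-(28937/3600)) * q ^ 4 + (-(361/1800)) * q ^ 5 := by ring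
  rw [e] at h
  exact h

theorem c1_3_aux (q r : ℝ) (hq : 0 ≤ q) (hr : 0 ≤ r) :
    0 ≤ q ^ 0 * (5 * q ^ 0 * r ^ 4 + (1127/30) * q ^ 1 * r ^ 3 + (7549/90) * q ^ 2 * r ^ 2 + (9386/135) * q ^ 3 * r ^ 1 + (488/27) * q ^ 4 * r ^ 0) := by positivity

theorem c1_3 (q : ℝ) (hq : 0 ≤ q) (hq1 : q ≤ 1) :
    0 ≤ 5 * q ^ 0 + (527/30) * q ^ 1 + (53/45) * q ^ 2 + (-(1493/270)) * q ^ 3 + (-(19/135)) * q ^ 4 := by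
  have h := c1_3_aux q (1 - q) hq (by linarith)
  have e : q ^ 0 * (5 * q ^ 0 * (1 - q) ^ 4 + (1127/30) * q ^ 1 * (1 - q) ^ 3 + (7549/90) * q ^ 2 * (1 - q) ^ 2 + (9386/135) * q ^ 3 * (1 - q) ^ 1 + (488/27) * q ^ 4 * (1 - q) ^ 0) =
    5 * q ^ 0 + (527/30) * q ^ 1 + (53/45) * q ^ 2 + (-(1493/270)) * q ^ 3 + (-(19/135)) * q ^ 4 := by ring
  rw [e] at h
  exact h

theorem c1_4_aux (q r : ℝ) (hq : 0 ≤ q) (hr : 0 ≤ r) :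
    0 ≤ q ^ 0 * (3 * q ^ 0 * r ^ 3 + (191/18) * q ^ 1 * r ^ 2 + (583/54) * q ^ 2 * r ^ 1 + (85/27) * q ^ 3 * r ^ 0) := by positivity

theorem c1_4 (q : ℝ) (hq : 0 ≤ q) (hq1 : q ≤ 1) :
    0 ≤ 3 * q ^ 0 + (29/18) * q ^ 1 + (-(77/54)) * q ^ 2 + (-(1/27)) * q ^ 3 := by
  have h := c1_4_aux q (1 - q) hq (by linarith)
  have e : q ^ 0 * (3 * q ^ 0 * (1 - q) ^ 3 + (191/18) * q ^ 1 * (1 - q) ^ 2 + (583/54) * q ^ 2 * (1 - q) ^ 1 + (85/27) * q ^ 3 * (1 - q) ^ 0) =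
    3 * q ^ 0 + (29/18) * q ^ 1 + (-(77/54)) * q ^ 2 + (-(1/27)) * q ^ 3 := by ring
  rw [e] at h
  exact h

theorem c2_0_aux (q r : ℝ) (hq : 0 ≤ q) (hr : 0 ≤ r) :
    0 ≤ q ^ 1 * ((171/20) * q ^ 0 * r ^ 3 + (7923/200) * q ^ 1 * r ^ 2 + (242839/4000) * q ^ 2 * r ^ 1 + (62719/2000) * q ^ 3 * r ^ 0) := by positivity

theorem c2_0 (q : ℝ) (hq : 0 ≤ q) (hq1 : q ≤ 1) :
    0 ≤ (171/20) * q ^ 1 + (2793/200) * q ^ 2 + (28519/4000) * q ^ 3 + (6859/4000) * q ^ 4 := by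
  have h := c2_0_aux q (1 - q) hq (by linarith)
  have e : q ^ 1 * ((171/20) * q ^ 0 * (1 - q) ^ 3 + (7923/200) * q ^ 1 * (1 - q) ^ 2 + (242839/4000) * q ^ 2 * (1 - q) ^ 1 + (62719/2000) * q ^ 3 * (1 - q) ^ 0) =
    (171/20) * q ^ 1 + (2793/200) * q ^ 2 + (28519/4000) * q ^ 3 + (6859/4000) * q ^ 4 := by ring
  rw [e] at h
  exact h

theorem c2_1_aux (q r : ℝ) (hq : 0 ≤ q) (hr : 0 ≤ r) :
    0 ≤ q ^ 0 * (9 * q ^ 0 * r ^ 3 + (237/5) * q ^ 1 * r ^ 2 + (16923/200) * q ^ 2 * r ^ 1 + (5163/100) * q ^ 3 * r ^ 0) := by positivity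

theorem c2_1 (q : ℝ) (hq : 0 ≤ q) (hq1 : q ≤ 1) :
    0 ≤ 9 * q ^ 0 + (102/5) * q ^ 1 + (3363/200) * q ^ 2 + (1083/200) * q ^ 3 := by
  have h := c2_1_aux q (1 - q) hq (by linarith)
  have e : q ^ 0 * (9 * q ^ 0 * (1 - q) ^ 3 + (237/5) * q ^ 1 * (1 - q) ^ 2 + (16923/200) * q ^ 2 * (1 - q) ^ 1 + (5163/100) * q ^ 3 * (1 - q) ^ 0) =
    9 * q ^ 0 + (102/5) * q ^ 1 + (3363/200) * q ^ 2 + (1083/200) * q ^ 3 := by ring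
  rw [e] at h
  exact h

theorem c2_2_aux (q r : ℝ) (hq : 0 ≤ q) (hr : 0 ≤ r) :
    0 ≤ q ^ 0 * (6 * q ^ 0 * r ^ 2 + (237/10) * q ^ 1 * r ^ 1 + (117/5) * q ^ 2 * r ^ 0) := by positivity

theorem c2_2 (q : ℝ) (hq : 0 ≤ q) (hq1 : q ≤ 1) :
    0 ≤ 6 * q ^ 0 + (117/10) * q ^ 1 + (57/10) * q ^ 2 := by
  have h := c2_2_aux q (1 - q) hq (by linarith)
  have e : q ^ 0 * (6 * q ^ 0 * (1 - q) ^ 2 + (237/10) * q ^ 1 * (1 - q) ^ 1 + (117/5) * q ^ 2 * (1 - q) ^ 0) =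
    6 * q ^ 0 + (117/10) * q ^ 1 + (57/10) * q ^ 2 := by ring
  rw [e] at h
  exact h

theorem c2_3_aux (q r : ℝ) (hq : 0 ≤ q) (hr : 0 ≤ r) :
    0 ≤ q ^ 0 * (2 * q ^ 0 * r ^ 1 + 4 * q ^ 1 * r ^ 0) := by positivity

theorem c2_3 (q : ℝ) (hq : 0 ≤ q) (hq1 : q ≤ 1) :
    0 ≤ 2 * q ^ 0 + 2 * q ^ 1 := by
  have h := c2_3_aux q (1 - q) hq (by linarith)
  have e : q ^ 0 * (2 * q ^ 0 * (1 - q) ^ 1 + 4 * q ^ 1 * (1 - q) ^ 0) =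
    2 * q ^ 0 + 2 * q ^ 1 := by ring
  rw [e] at h
  exact h

theorem regI (d A T D p q t : ℝ) (hp : 0 ≤ p) (hq : 0 ≤ q) (hq1 : q ≤ 1) (ht : 0 ≤ t)
    (hd : d = p + 19 / 20 * q) (hA : A = 3 * d + 3 * d ^ 2 + d ^ 3)
    (hT : T = (9 * d - 4 * q - 2 * q * d) *
      (A / 2 + q + q * d / 4 - q * d ^ 2 / 12 - q * d ^ 3 / 12) / 9)
    (hD : D = d - 4 * q / 9 * (1 + d) + t) :
    ((A + 3 / 2 * d) * D - T) * (4 - 3 * q - q ^ 2 - 2 * (1 + q) * D) ≤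
      12 * D ^ 2 + 2 * q * (1 + q) * D := by
  have key : 12 * D ^ 2 + 2 * q * (1 + q) * D -
      ((A + 3 / 2 * d) * D - T) * (4 - 3 * q - q ^ 2 - 2 * (1 + q) * D) =
      12 * (t - (89/720) * q) ^ 2 +
      (t ^ 0 * p ^ 0 * ((2213/14400) * q ^ 2 + (3463/2025) * q ^ 3 + (7226987/4320000) * q ^ 4 + (-(2216964023/777600000)) * q ^ 5 + (-(168772193/172800000)) * q ^ 6 + (175597259/1555200000) * q ^ 7 + (5603803/28800000) * q ^ 8 + (2476099/194400000) * q ^ 9) +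
      t ^ 0 * p ^ 1 * ((2/3) * q ^ 1 + (407/135) * q ^ 2 + (421121/40500) * q ^ 3 + (-(58370153/7776000)) * q ^ 4 + (-(16730849/3110400)) * q ^ 5 + (-(1906441/15552000)) * q ^ 6 + (1529557/1555200) * q ^ 7 + (130321/1944000) * q ^ 8) +
      t ^ 0 * p ^ 2 * ((4/3) * q ^ 1 + (10469/600) * q ^ 2 + (-(549581/194400)) * q ^ 3 + (-(4175593/388800)) * q ^ 4 + (-(77273/43200)) * q ^ 5 + (385909/194400) * q ^ 6 + (6859/48600) * q ^ 7) +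
      t ^ 0 * p ^ 3 * ((436/45) * q ^ 1 + (4535/648) * q ^ 2 + (-(179549/19440)) * q ^ 3 + (-(13673/3888)) * q ^ 4 + (6479/3240) * q ^ 5 + (361/2430) * q ^ 6) +
      t ^ 0 * p ^ 4 * (1 * q ^ 0 + (223/36) * q ^ 1 + (-(1843/648)) * q ^ 2 + (-(5293/1944)) * q ^ 3 + (977/972) * q ^ 4 + (19/243) * q ^ 5) +
      t ^ 0 * p ^ 5 * (1 * q ^ 0 + (1/18) * q ^ 1 + (-(41/54)) * q ^ 2 + (49/243) * q ^ 3 + (4/243) * q ^ 4) +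
      t ^ 1 * p ^ 0 * ((197/3600) * q ^ 2 + (184769/14400) * q ^ 3 + (1837471/4320000) * q ^ 4 + (-(25000333/8640000)) * q ^ 5 + (-(10857797/8640000)) * q ^ 6 + (-(130321/4320000)) * q ^ 7) +
      t ^ 1 * p ^ 1 * (6 * q ^ 0 + (-(2/15)) * q ^ 1 + (7957/240) * q ^ 2 + (1181353/108000) * q ^ 3 + (-(26296/3375)) * q ^ 4 + (-(560633/108000)) * q ^ 5 + (-(6859/54000)) * q ^ 6) +
      t ^ 1 * p ^ 2 * (3 * q ^ 0 + (317/12) * q ^ 1 + (16891/675) * q ^ 2 + (-(57569/10800)) * q ^ 3 + (-(28937/3600)) * q ^ 4 + (-(361/1800)) * q ^ 5) +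
      t ^ 1 * p ^ 3 * (5 * q ^ 0 + (527/30) * q ^ 1 + (53/45) * q ^ 2 + (-(1493/270)) * q ^ 3 + (-(19/135)) * q ^ 4) +
      t ^ 1 * p ^ 4 * (3 * q ^ 0 + (29/18) * q ^ 1 + (-(77/54)) * q ^ 2 + (-(1/27)) * q ^ 3) +
      t ^ 2 * p ^ 0 * ((171/20) * q ^ 1 + (2793/200) * q ^ 2 + (28519/4000) * q ^ 3 + (6859/4000) * q ^ 4) +
      t ^ 2 * p ^ 1 * (9 * q ^ 0 + (102/5) * q ^ 1 + (3363/200) * q ^ 2 + (1083/200) * q ^ 3) +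
      t ^ 2 * p ^ 2 * (6 * q ^ 0 + (117/10) * q ^ 1 + (57/10) * q ^ 2) +
      t ^ 2 * p ^ 3 * (2 * q ^ 0 + 2 * q ^ 1)) := by
    rw [hT, hD, hA, hd]
    ring
  have pos : 0 ≤ 12 * (t - (89/720) * q) ^ 2 +
      (t ^ 0 * p ^ 0 * ((2213/14400) * q ^ 2 + (3463/2025) * q ^ 3 + (7226987/4320000) * q ^ 4 + (-(2216964023/777600000)) * q ^ 5 + (-(168772193/172800000)) * q ^ 6 + (175597259/1555200000) * q ^ 7 + (5603803/28800000) * q ^ 8 + (2476099/194400000) * q ^ 9) +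
      t ^ 0 * p ^ 1 * ((2/3) * q ^ 1 + (407/135) * q ^ 2 + (421121/40500) * q ^ 3 + (-(58370153/7776000)) * q ^ 4 + (-(16730849/3110400)) * q ^ 5 + (-(1906441/15552000)) * q ^ 6 + (1529557/1555200) * q ^ 7 + (130321/1944000) * q ^ 8) +
      t ^ 0 * p ^ 2 * ((4/3) * q ^ 1 + (10469/600) * q ^ 2 + (-(549581/194400)) * q ^ 3 + (-(4175593/388800)) * q ^ 4 + (-(77273/43200)) * q ^ 5 + (385909/194400) * q ^ 6 + (6859/48600) * q ^ 7) +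
      t ^ 0 * p ^ 3 * ((436/45) * q ^ 1 + (4535/648) * q ^ 2 + (-(179549/19440)) * q ^ 3 + (-(13673/3888)) * q ^ 4 + (6479/3240) * q ^ 5 + (361/2430) * q ^ 6) +
      t ^ 0 * p ^ 4 * (1 * q ^ 0 + (223/36) * q ^ 1 + (-(1843/648)) * q ^ 2 + (-(5293/1944)) * q ^ 3 + (977/972) * q ^ 4 + (19/243) * q ^ 5) +
      t ^ 0 * p ^ 5 * (1 * q ^ 0 + (1/18) * q ^ 1 + (-(41/54)) * q ^ 2 + (49/243) * q ^ 3 + (4/243) * q ^ 4) +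
      t ^ 1 * p ^ 0 * ((197/3600) * q ^ 2 + (184769/14400) * q ^ 3 + (1837471/4320000) * q ^ 4 + (-(25000333/8640000)) * q ^ 5 + (-(10857797/8640000)) * q ^ 6 + (-(130321/4320000)) * q ^ 7) +
      t ^ 1 * p ^ 1 * (6 * q ^ 0 + (-(2/15)) * q ^ 1 + (7957/240) * q ^ 2 + (1181353/108000) * q ^ 3 + (-(26296/3375)) * q ^ 4 + (-(560633/108000)) * q ^ 5 + (-(6859/54000)) * q ^ 6) +
      t ^ 1 * p ^ 2 * (3 * q ^ 0 + (317/12) * q ^ 1 + (16891/675) * q ^ 2 + (-(57569/10800)) * q ^ 3 + (-(28937/3600)) * q ^ 4 + (-(361/1800)) * q ^ 5) +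
      t ^ 1 * p ^ 3 * (5 * q ^ 0 + (527/30) * q ^ 1 + (53/45) * q ^ 2 + (-(1493/270)) * q ^ 3 + (-(19/135)) * q ^ 4) +
      t ^ 1 * p ^ 4 * (3 * q ^ 0 + (29/18) * q ^ 1 + (-(77/54)) * q ^ 2 + (-(1/27)) * q ^ 3) +
      t ^ 2 * p ^ 0 * ((171/20) * q ^ 1 + (2793/200) * q ^ 2 + (28519/4000) * q ^ 3 + (6859/4000) * q ^ 4) +
      t ^ 2 * p ^ 1 * (9 * q ^ 0 + (102/5) * q ^ 1 + (3363/200) * q ^ 2 + (1083/200) * q ^ 3) +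
      t ^ 2 * p ^ 2 * (6 * q ^ 0 + (117/10) * q ^ 1 + (57/10) * q ^ 2) +
      t ^ 2 * p ^ 3 * (2 * q ^ 0 + 2 * q ^ 1)) := by
    refine add_nonneg (by positivity) ?_

    have hc0_0 := mul_nonneg (mul_nonneg (pow_nonneg ht 0) (pow_nonneg hp 0)) (c0_0 q hq hq1)

    have hc0_1 := mul_nonneg (mul_nonneg (pow_nonneg ht 0) (pow_nonneg hp 1)) (c0_1 q hq hq1)

    have hc0_2 := mul_nonneg (mul_nonneg (pow_nonneg ht 0) (pow_nonneg hp 2)) (c0_2 q hq hq1)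

    have hc0_3 := mul_nonneg (mul_nonneg (pow_nonneg ht 0) (pow_nonneg hp 3)) (c0_3 q hq hq1)

    have hc0_4 := mul_nonneg (mul_nonneg (pow_nonneg ht 0) (pow_nonneg hp 4)) (c0_4 q hq hq1)

    have hc0_5 := mul_nonneg (mul_nonneg (pow_nonneg ht 0) (pow_nonneg hp 5)) (c0_5 q hq hq1)

    have hc1_0 := mul_nonneg (mul_nonneg (pow_nonneg ht 1) (pow_nonneg hp 0)) (c1_0 q hq hq1)

    have hc1_1 := mul_nonneg (mul_nonneg (pow_nonneg ht 1) (pow_nonneg hp 1)) (c1_1 q hq hq1)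

    have hc1_2 := mul_nonneg (mul_nonneg (pow_nonneg ht 1) (pow_nonneg hp 2)) (c1_2 q hq hq1)

    have hc1_3 := mul_nonneg (mul_nonneg (pow_nonneg ht 1) (pow_nonneg hp 3)) (c1_3 q hq hq1)

    have hc1_4 := mul_nonneg (mul_nonneg (pow_nonneg ht 1) (pow_nonneg hp 4)) (c1_4 q hq hq1)

    have hc2_0 := mul_nonneg (mul_nonneg (pow_nonneg ht 2) (pow_nonneg hp 0)) (c2_0 q hq hq1)

    have hc2_1 := mul_nonneg (mul_nonneg (pow_nonneg ht 2) (pow_nonneg hp 1)) (c2_1 q hq hq1)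

    have hc2_2 := mul_nonneg (mul_nonneg (pow_nonneg ht 2) (pow_nonneg hp 2)) (c2_2 q hq hq1)

    have hc2_3 := mul_nonneg (mul_nonneg (pow_nonneg ht 2) (pow_nonneg hp 3)) (c2_3 q hq hq1)

    repeat (first | assumption | refine add_nonneg ?_ ?_)

  linarith [key, pos]

theorem cell0_aux (s s1 v v1 : ℝ) (hs : 0 ≤ s) (hs1 : 0 ≤ s1) (hv : 0 ≤ v) (hv1 : 0 ≤ v1) :
    0 ≤ (2/3) * s ^ 0 * s1 ^ 4 * v ^ 0 * v1 ^ 6 + (2281/540) * s ^ 0 * s1 ^ 4 * v ^ 1 * v1 ^ 5 + (71947/6480) * s ^ 0 * s1 ^ 4 * v ^ 2 * v1 ^ 4 + (100451/6480) * s ^ 0 * s1 ^ 4 * v ^ 3 * v1 ^ 3 + (26197/2160) * s ^ 0 * s1 ^ 4 * v ^ 4 * v1 ^ 2 + (32677/6480) * s ^ 0 * s1 ^ 4 * v ^ 5 * v1 ^ 1 + (2821/3240) * s ^ 0 * s1 ^ 4 * v ^ 6 * v1 ^ 0 + (8/3) * s ^ 1 * s1 ^ 3 * v ^ 0 * v1 ^ 6 + (35983/2160) * s ^ 1 * s1 ^ 3 * v ^ 1 *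 v1 ^ 5 + (5607503/129600) * s ^ 1 * s1 ^ 3 * v ^ 2 * v1 ^ 4 + (969151/16200) * s ^ 1 * s1 ^ 3 * v ^ 3 * v1 ^ 3 + (24081301/518400) * s ^ 1 * s1 ^ 3 * v ^ 4 * v1 ^ 2 + (4979477/259200) * s ^ 1 * s1 ^ 3 * v ^ 5 * v1 ^ 1 + (571331/172800) * s ^ 1 * s1 ^ 3 * v ^ 6 * v1 ^ 0 + 4 * s ^ 2 * s1 ^ 2 * v ^ 0 * v1 ^ 6 + (167603/7200) * s ^ 2 * s1 ^ 2 * v ^ 1 * v1 ^ 5 + (9843073/172800) * s ^ 2 * s1 ^ 2 * v ^ 2 * v1 ^ 4 + (259500901/3456000) * s ^ 2 * s1 ^ 2 * v ^ 3 * v1 ^ 3 + (64824719/1152000) * s ^ 2 * s1 ^ 2 * v ^ 4 * v1 ^ 2 + (78588251/3456000) * s ^ 2 * s1 ^ 2 * v ^ 5 * v1 ^ 1 + (535159/138240) * s ^ 2 * s1 ^ 2 * v ^ 6 * v1 ^ 0 + (8/3) * s ^ 3 * s1 ^ 1 * v ^ 0 * v1 ^ 6 + (18193/1350) * s ^ 3 * s1 ^ 1 * v ^ 1 * v1 ^ 5 + (148469999/5184000) * s ^ 3 * s1 ^ 1 * v ^ 2 * v1 ^ 4 + (1377290891/41472000)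 * s ^ 3 * s1 ^ 1 * v ^ 3 * v1 ^ 3 + (18705554123/829440000) * s ^ 3 * s1 ^ 1 * v ^ 4 * v1 ^ 2 + (3588532279/414720000) * s ^ 3 * s1 ^ 1 * v ^ 5 * v1 ^ 1 + (245613523/165888000) * s ^ 3 * s1 ^ 1 * v ^ 6 * v1 ^ 0 + (2/3) * s ^ 4 * s1 ^ 0 * v ^ 0 * v1 ^ 6 + (56869/21600) * s ^ 4 * s1 ^ 0 * v ^ 1 * v1 ^ 5 + (19920329/5184000) * s ^ 4 * s1 ^ 0 * v ^ 2 * v1 ^ 4 + (1024758391/414720000) * s ^ 4 * s1 ^ 0 * v ^ 3 * v1 ^ 3 + (378972181/552960000) * s ^ 4 * s1 ^ 0 * v ^ 4 * v1 ^ 2 + (2725589947/16588800000) * s ^ 4 * s1 ^ 0 * v ^ 5 * v1 ^ 1 + (108306953/1474560000) * s ^ 4 * s1 ^ 0 * v ^ 6 * v1 ^ 0 := by positivity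

theorem cell0 (d A D z q s v : ℝ) (hs : 0 ≤ s) (hs1 : s ≤ 1) (hv : 0 ≤ v) (hv1 : v ≤ 1)
    (hq : q = 0 + (1/4) * v) (hd : d = 19 / 20 * q * s) (hA : A = 3 * d + 3 * d ^ 2 + d ^ 3)
    (hz : z = 4 * q / 9) (hD : D = d - (1 + d) * (z - 17 / 40 * z ^ 2)) :
    (A - q) * (4 - 3 * q - q ^ 2 - 2 * (1 + q) * D) ≤ 12 * D + 2 * q * (1 + q) := by
  have h := cell0_aux s (1 - s) v (1 - v) hs (by linarith) hv (by linarith)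
  have hqn : 0 ≤ q := by rw [hq]; positivity
  have key : 12 * D + 2 * q * (1 + q) - (A - q) * (4 - 3 * q - q ^ 2 - 2 * (1 + q) * D) =
      q * ((2/3) * s ^ 0 * (1 - s) ^ 4 * v ^ 0 * (1 - v) ^ 6 + (2281/540) * s ^ 0 * (1 - s) ^ 4 * v ^ 1 * (1 - v) ^ 5 + (71947/6480) * s ^ 0 * (1 - s) ^ 4 * v ^ 2 * (1 - v) ^ 4 + (100451/6480) * s ^ 0 * (1 - s) ^ 4 * v ^ 3 * (1 - v) ^ 3 + (26197/2160) * s ^ 0 * (1 - s) ^ 4 * v ^ 4 * (1 - v) ^ 2 + (32677/6480) * s ^ 0 * (1 - s) ^ 4 * v ^ 5 * (1 - v) ^ 1 + (2821/3240) * s ^ 0 * (1 - s) ^ 4 * v ^ 6 * (1 - v) ^ 0 + (8/3) * s ^ 1 * (1 - s) ^ 3 * v ^ 0 * (1 - v) ^ 6 + (35983/2160) * s ^ 1 * (1 - s) ^ 3 * v ^ 1 * (1 - v) ^ 5 + (5607503/129600) * s ^ 1 * (1 - s) ^ 3 * v ^ 2 * (1 - v) ^ 4 + (969151/16200) * s ^ 1 * (1 - s) ^ 3 * v ^ 3 * (1 - v) ^ 3 + (24081301/518400)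 * s ^ 1 * (1 - s) ^ 3 * v ^ 4 * (1 - v) ^ 2 + (4979477/259200) * s ^ 1 * (1 - s) ^ 3 * v ^ 5 * (1 - v) ^ 1 + (571331/172800) * s ^ 1 * (1 - s) ^ 3 * v ^ 6 * (1 - v) ^ 0 + 4 * s ^ 2 * (1 - s) ^ 2 * v ^ 0 * (1 - v) ^ 6 + (167603/7200) * s ^ 2 * (1 - s) ^ 2 * v ^ 1 * (1 - v) ^ 5 + (9843073/172800) * s ^ 2 * (1 - s) ^ 2 * v ^ 2 * (1 - v) ^ 4 + (259500901/3456000) * s ^ 2 * (1 - s) ^ 2 * v ^ 3 * (1 - v) ^ 3 + (64824719/1152000) * s ^ 2 * (1 - s) ^ 2 * v ^ 4 * (1 - v) ^ 2 + (78588251/3456000) * s ^ 2 * (1 - s) ^ 2 * v ^ 5 * (1 - v) ^ 1 + (535159/138240) * s ^ 2 * (1 - s) ^ 2 * v ^ 6 * (1 - v) ^ 0 + (8/3) * s ^ 3 * (1 - s) ^ 1 * v ^ 0 * (1 - v) ^ 6 + (18193/1350) * s ^ 3 * (1 - s) ^ 1 * v ^ 1 * (1 - v) ^ 5 + (148469999/5184000) * s ^ 3 * (1 - s) ^ 1 * v ^ 2 * (1 - v) ^ 4 + (1377290891/41472000)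 * s ^ 3 * (1 - s) ^ 1 * v ^ 3 * (1 - v) ^ 3 + (18705554123/829440000) * s ^ 3 * (1 - s) ^ 1 * v ^ 4 * (1 - v) ^ 2 + (3588532279/414720000) * s ^ 3 * (1 - s) ^ 1 * v ^ 5 * (1 - v) ^ 1 + (245613523/165888000) * s ^ 3 * (1 - s) ^ 1 * v ^ 6 * (1 - v) ^ 0 + (2/3) * s ^ 4 * (1 - s) ^ 0 * v ^ 0 * (1 - v) ^ 6 + (56869/21600) * s ^ 4 * (1 - s) ^ 0 * v ^ 1 * (1 - v) ^ 5 + (19920329/5184000) * s ^ 4 * (1 - s) ^ 0 * v ^ 2 * (1 - v) ^ 4 + (1024758391/414720000) * s ^ 4 * (1 - s) ^ 0 * v ^ 3 * (1 - v) ^ 3 + (378972181/552960000) * s ^ 4 * (1 - s) ^ 0 * v ^ 4 * (1 - v) ^ 2 + (2725589947/16588800000) * s ^ 4 * (1 - s) ^ 0 * v ^ 5 * (1 - v) ^ 1 + (108306953/1474560000) * s ^ 4 * (1 - s) ^ 0 * v ^ 6 * (1 - v) ^ 0) := by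
    rw [hD, hz, hA, hd, hq]
    ring
  have := mul_nonneg hqn h
  linarith

theorem cell1_aux (s s1 v v1 : ℝ) (hs : 0 ≤ s) (hs1 : 0 ≤ s1) (hv : 0 ≤ v) (hv1 : 0 ≤ v1) :
    0 ≤ (2821/3240) * s ^ 0 * s1 ^ 4 * v ^ 0 * v1 ^ 6 + (35027/6480) * s ^ 0 * s1 ^ 4 * v ^ 1 * v1 ^ 5 + (90341/6480) * s ^ 0 * s1 ^ 4 * v ^ 2 * v1 ^ 4 + (123917/6480) * s ^ 0 * s1 ^ 4 * v ^ 3 * v1 ^ 3 + (19069/1296) * s ^ 0 * s1 ^ 4 * v ^ 4 * v1 ^ 2 + (1951/324) * s ^ 0 * s1 ^ 4 * v ^ 5 * v1 ^ 1 + (553/540) * s ^ 0 * s1 ^ 4 * v ^ 6 * v1 ^ 0 + (571331/172800) * s ^ 1 * s1 ^ 3 * v ^ 0 * v1 ^ 6 + (5304481/259200) * s ^ 1 * s1 ^ 3 * v ^ 1 * v1 ^ 5 + (9110447/172800) * s ^ 1 * s1 ^ 3 * v ^ 2 * v1 ^ 4 + (4689787/64800) * s ^ 1 * s1 ^ 3 * v ^ 3 * v1 ^ 3 + (2412187/43200) * s ^ 1 * s1 ^ 3 * v ^ 4 * v1 ^ 2 + (371941/16200)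 * s ^ 1 * s1 ^ 3 * v ^ 5 * v1 ^ 1 + (21227/5400) * s ^ 1 * s1 ^ 3 * v ^ 6 * v1 ^ 0 + (535159/138240) * s ^ 2 * s1 ^ 2 * v ^ 0 * v1 ^ 6 + (81959449/3456000) * s ^ 2 * s1 ^ 2 * v ^ 1 * v1 ^ 5 + (211330147/3456000) * s ^ 2 * s1 ^ 2 * v ^ 2 * v1 ^ 4 + (58679663/691200) * s ^ 2 * s1 ^ 2 * v ^ 3 * v1 ^ 3 + (115564871/1728000) * s ^ 2 * s1 ^ 2 * v ^ 4 * v1 ^ 2 + (24465433/864000) * s ^ 2 * s1 ^ 2 * v ^ 5 * v1 ^ 1 + (724193/144000) * s ^ 2 * s1 ^ 2 * v ^ 6 * v1 ^ 0 + (245613523/165888000) * s ^ 3 * s1 ^ 1 * v ^ 0 * v1 ^ 6 + (3779873411/414720000) * s ^ 3 * s1 ^ 1 * v ^ 1 * v1 ^ 5 + (6872988481/276480000) * s ^ 3 * s1 ^ 1 * v ^ 2 * v1 ^ 4 + (2625570937/69120000) * s ^ 3 * s1 ^ 1 * v ^ 3 * v1 ^ 3 + (1749040927/51840000) * s ^ 3 * s1 ^ 1 * v ^ 4 * v1 ^ 2 + (843422231/51840000) * s ^ 3 * s1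 ^ 1 * v ^ 5 * v1 ^ 1 + (6318671/1920000) * s ^ 3 * s1 ^ 1 * v ^ 6 * v1 ^ 0 + (108306953/1474560000) * s ^ 4 * s1 ^ 0 * v ^ 0 * v1 ^ 6 + (2973962177/4147200000) * s ^ 4 * s1 ^ 0 * v ^ 1 * v1 ^ 5 + (11444091847/3317760000) * s ^ 4 * s1 ^ 0 * v ^ 2 * v1 ^ 4 + (3397297633/414720000) * s ^ 4 * s1 ^ 0 * v ^ 3 * v1 ^ 3 + (8252229331/829440000) * s ^ 4 * s1 ^ 0 * v ^ 4 * v1 ^ 2 + (24782477/4147200) * s ^ 4 * s1 ^ 0 * v ^ 5 * v1 ^ 1 + (162741089/115200000) * s ^ 4 * s1 ^ 0 * v ^ 6 * v1 ^ 0 := by positivity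

theorem cell1 (d A D z q s v : ℝ) (hs : 0 ≤ s) (hs1 : s ≤ 1) (hv : 0 ≤ v) (hv1 : v ≤ 1)
    (hq : q = (1/4) + (1/4) * v) (hd : d = 19 / 20 * q * s) (hA : A = 3 * d + 3 * d ^ 2 + d ^ 3)
    (hz : z = 4 * q / 9) (hD : D = d - (1 + d) * (z - 17 / 40 * z ^ 2)) :
    (A - q) * (4 - 3 * q - q ^ 2 - 2 * (1 + q) * D) ≤ 12 * D + 2 * q * (1 + q) := by
  have h := cell1_aux s (1 - s) v (1 - v) hs (by linarith) hv (by linarith)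
  have hqn : 0 ≤ q := by rw [hq]; positivity
  have key : 12 * D + 2 * q * (1 + q) - (A - q) * (4 - 3 * q - q ^ 2 - 2 * (1 + q) * D) =
      q * ((2821/3240) * s ^ 0 * (1 - s) ^ 4 * v ^ 0 * (1 - v) ^ 6 + (35027/6480) * s ^ 0 * (1 - s) ^ 4 * v ^ 1 * (1 - v) ^ 5 + (90341/6480) * s ^ 0 * (1 - s) ^ 4 * v ^ 2 * (1 - v) ^ 4 + (123917/6480) * s ^ 0 * (1 - s) ^ 4 * v ^ 3 * (1 - v) ^ 3 + (19069/1296) * s ^ 0 * (1 - s) ^ 4 * v ^ 4 * (1 - v) ^ 2 + (1951/324) * s ^ 0 * (1 - s) ^ 4 * v ^ 5 * (1 - v) ^ 1 + (553/540) * s ^ 0 * (1 - s) ^ 4 * v ^ 6 * (1 - v) ^ 0 + (571331/172800) * s ^ 1 * (1 - s) ^ 3 * v ^ 0 * (1 - v) ^ 6 + (5304481/259200) * s ^ 1 * (1 - s) ^ 3 * v ^ 1 * (1 - v) ^ 5 + (9110447/172800) * s ^ 1 * (1 - s) ^ 3 * v ^ 2 * (1 - v) ^ 4 + (4689787/64800) * s ^ 1 * (1 - s) ^ 3 * v ^ 3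 * (1 - v) ^ 3 + (2412187/43200) * s ^ 1 * (1 - s) ^ 3 * v ^ 4 * (1 - v) ^ 2 + (371941/16200) * s ^ 1 * (1 - s) ^ 3 * v ^ 5 * (1 - v) ^ 1 + (21227/5400) * s ^ 1 * (1 - s) ^ 3 * v ^ 6 * (1 - v) ^ 0 + (535159/138240) * s ^ 2 * (1 - s) ^ 2 * v ^ 0 * (1 - v) ^ 6 + (81959449/3456000) * s ^ 2 * (1 - s) ^ 2 * v ^ 1 * (1 - v) ^ 5 + (211330147/3456000) * s ^ 2 * (1 - s) ^ 2 * v ^ 2 * (1 - v) ^ 4 + (58679663/691200) * s ^ 2 * (1 - s) ^ 2 * v ^ 3 * (1 - v) ^ 3 + (115564871/1728000) * s ^ 2 * (1 - s) ^ 2 * v ^ 4 * (1 - v) ^ 2 + (24465433/864000) * s ^ 2 * (1 - s) ^ 2 * v ^ 5 * (1 - v) ^ 1 + (724193/144000) * s ^ 2 * (1 - s) ^ 2 * v ^ 6 * (1 - v) ^ 0 + (245613523/165888000) * s ^ 3 * (1 - s) ^ 1 * v ^ 0 * (1 - v) ^ 6 + (3779873411/414720000) * s ^ 3 * (1 - s) ^ 1 * v ^ 1 * (1 - v) ^ 5 + (6872988481/276480000)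 * s ^ 3 * (1 - s) ^ 1 * v ^ 2 * (1 - v) ^ 4 + (2625570937/69120000) * s ^ 3 * (1 - s) ^ 1 * v ^ 3 * (1 - v) ^ 3 + (1749040927/51840000) * s ^ 3 * (1 - s) ^ 1 * v ^ 4 * (1 - v) ^ 2 + (843422231/51840000) * s ^ 3 * (1 - s) ^ 1 * v ^ 5 * (1 - v) ^ 1 + (6318671/1920000) * s ^ 3 * (1 - s) ^ 1 * v ^ 6 * (1 - v) ^ 0 + (108306953/1474560000) * s ^ 4 * (1 - s) ^ 0 * v ^ 0 * (1 - v) ^ 6 + (2973962177/4147200000) * s ^ 4 * (1 - s) ^ 0 * v ^ 1 * (1 - v) ^ 5 + (11444091847/3317760000) * s ^ 4 * (1 - s) ^ 0 * v ^ 2 * (1 - v) ^ 4 + (3397297633/414720000) * s ^ 4 * (1 - s) ^ 0 * v ^ 3 * (1 - v) ^ 3 + (8252229331/829440000) * s ^ 4 * (1 - s) ^ 0 * v ^ 4 * (1 - v) ^ 2 + (24782477/4147200) * s ^ 4 * (1 - s) ^ 0 * v ^ 5 * (1 - v) ^ 1 + (162741089/115200000) * s ^ 4 * (1 - s) ^ 0 * v ^ 6 * (1 - v)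 ^ 0) := by
    rw [hD, hz, hA, hd, hq]
    ring
  have := mul_nonneg hqn h
  linarith

theorem cell2_aux (s s1 v v1 : ℝ) (hs : 0 ≤ s) (hs1 : 0 ≤ s1) (hv : 0 ≤ v) (hv1 : 0 ≤ v1) :
    0 ≤ (553/540) * s ^ 0 * s1 ^ 4 * v ^ 0 * v1 ^ 6 + (2588/405) * s ^ 0 * s1 ^ 4 * v ^ 1 * v1 ^ 5 + (1333/81) * s ^ 0 * s1 ^ 4 * v ^ 2 * v1 ^ 4 + (18133/810) * s ^ 0 * s1 ^ 4 * v ^ 3 * v1 ^ 3 + (27473/1620) * s ^ 0 * s1 ^ 4 * v ^ 4 * v1 ^ 2 + (5491/810) * s ^ 0 * s1 ^ 4 * v ^ 5 * v1 ^ 1 + (452/405) * s ^ 0 * s1 ^ 4 * v ^ 6 * v1 ^ 0 + (21227/5400) * s ^ 1 * s1 ^ 3 * v ^ 0 * v1 ^ 6 + (50297/2025) * s ^ 1 * s1 ^ 3 * v ^ 1 * v1 ^ 5 + (704657/10800) * s ^ 1 * s1 ^ 3 * v ^ 2 * v1 ^ 4 + (184769/2025) * s ^ 1 * s1 ^ 3 * v ^ 3 * v1 ^ 3 + (773951/10800) * s ^ 1 * s1 ^ 3 * v ^ 4 * v1 ^ 2 + (97109/3240) * s ^ 1 *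 s1 ^ 3 * v ^ 5 * v1 ^ 1 + (704/135) * s ^ 1 * s1 ^ 3 * v ^ 6 * v1 ^ 0 + (724193/144000) * s ^ 2 * s1 ^ 2 * v ^ 0 * v1 ^ 6 + (14640989/432000) * s ^ 2 * s1 ^ 2 * v ^ 1 * v1 ^ 5 + (41881541/432000) * s ^ 2 * s1 ^ 2 * v ^ 2 * v1 ^ 4 + (64683827/432000) * s ^ 2 * s1 ^ 2 * v ^ 3 * v1 ^ 3 + (14148767/108000) * s ^ 2 * s1 ^ 2 * v ^ 4 * v1 ^ 2 + (6623837/108000) * s ^ 2 * s1 ^ 2 * v ^ 5 * v1 ^ 1 + (161593/13500) * s ^ 2 * s1 ^ 2 * v ^ 6 * v1 ^ 0 + (6318671/1920000) * s ^ 3 * s1 ^ 1 * v ^ 0 * v1 ^ 6 + (346007411/12960000) * s ^ 3 * s1 ^ 1 * v ^ 1 * v1 ^ 5 + (4725052573/51840000) * s ^ 3 * s1 ^ 1 * v ^ 2 * v1 ^ 4 + (1418460079/8640000) * s ^ 3 * s1 ^ 1 * v ^ 3 * v1 ^ 3 + (705581041/4320000) * s ^ 3 * s1 ^ 1 * v ^ 4 * v1 ^ 2 + (110157079/1296000) * s ^ 3 * s1 ^ 1 * v ^ 5 * v1 ^ 1 + (14663189/810000)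 * s ^ 3 * s1 ^ 1 * v ^ 6 * v1 ^ 0 + (162741089/115200000) * s ^ 4 * s1 ^ 0 * v ^ 0 * v1 ^ 6 + (6986408959/518400000) * s ^ 4 * s1 ^ 0 * v ^ 1 * v1 ^ 5 + (5312299229/103680000) * s ^ 4 * s1 ^ 0 * v ^ 2 * v1 ^ 4 + (5144901737/51840000) * s ^ 4 * s1 ^ 0 * v ^ 3 * v1 ^ 3 + (2693705447/25920000) * s ^ 4 * s1 ^ 0 * v ^ 4 * v1 ^ 2 + (3639447017/64800000) * s ^ 4 * s1 ^ 0 * v ^ 5 * v1 ^ 1 + (66501773/5400000) * s ^ 4 * s1 ^ 0 * v ^ 6 * v1 ^ 0 := by positivity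

theorem cell2 (d A D z q s v : ℝ) (hs : 0 ≤ s) (hs1 : s ≤ 1) (hv : 0 ≤ v) (hv1 : v ≤ 1)
    (hq : q = (1/2) + (1/2) * v) (hd : d = 19 / 20 * q * s) (hA : A = 3 * d + 3 * d ^ 2 + d ^ 3)
    (hz : z = 4 * q / 9) (hD : D = d - (1 + d) * (z - 17 / 40 * z ^ 2)) :
    (A - q) * (4 - 3 * q - q ^ 2 - 2 * (1 + q) * D) ≤ 12 * D + 2 * q * (1 + q) := by
  have h := cell2_aux s (1 - s) v (1 - v) hs (by linarith) hv (by linarith)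
  have hqn : 0 ≤ q := by rw [hq]; positivity
  have key : 12 * D + 2 * q * (1 + q) - (A - q) * (4 - 3 * q - q ^ 2 - 2 * (1 + q) * D) =
      q * ((553/540) * s ^ 0 * (1 - s) ^ 4 * v ^ 0 * (1 - v) ^ 6 + (2588/405) * s ^ 0 * (1 - s) ^ 4 * v ^ 1 * (1 - v) ^ 5 + (1333/81) * s ^ 0 * (1 - s) ^ 4 * v ^ 2 * (1 - v) ^ 4 + (18133/810) * s ^ 0 * (1 - s) ^ 4 * v ^ 3 * (1 - v) ^ 3 + (27473/1620) * s ^ 0 * (1 - s) ^ 4 * v ^ 4 * (1 - v) ^ 2 + (5491/810) * s ^ 0 * (1 - s) ^ 4 * v ^ 5 * (1 - v) ^ 1 + (452/405) * s ^ 0 * (1 - s) ^ 4 * v ^ 6 * (1 - v) ^ 0 + (21227/5400) * s ^ 1 * (1 - s) ^ 3 * v ^ 0 * (1 - v) ^ 6 + (50297/2025) * s ^ 1 * (1 - s) ^ 3 * v ^ 1 * (1 - v) ^ 5 + (704657/10800) * s ^ 1 * (1 - s) ^ 3 * v ^ 2 * (1 - v) ^ 4 + (184769/2025) * s ^ 1 * (1 - s) ^ 3 * v ^ 3 * (1 - v) ^ 3 + (773951/10800)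 * s ^ 1 * (1 - s) ^ 3 * v ^ 4 * (1 - v) ^ 2 + (97109/3240) * s ^ 1 * (1 - s) ^ 3 * v ^ 5 * (1 - v) ^ 1 + (704/135) * s ^ 1 * (1 - s) ^ 3 * v ^ 6 * (1 - v) ^ 0 + (724193/144000) * s ^ 2 * (1 - s) ^ 2 * v ^ 0 * (1 - v) ^ 6 + (14640989/432000) * s ^ 2 * (1 - s) ^ 2 * v ^ 1 * (1 - v) ^ 5 + (41881541/432000) * s ^ 2 * (1 - s) ^ 2 * v ^ 2 * (1 - v) ^ 4 + (64683827/432000) * s ^ 2 * (1 - s) ^ 2 * v ^ 3 * (1 - v) ^ 3 + (14148767/108000) * s ^ 2 * (1 - s) ^ 2 * v ^ 4 * (1 - v) ^ 2 + (6623837/108000) * s ^ 2 * (1 - s) ^ 2 * v ^ 5 * (1 - v) ^ 1 + (161593/13500) * s ^ 2 * (1 - s) ^ 2 * v ^ 6 * (1 - v) ^ 0 + (6318671/1920000) * s ^ 3 * (1 - s) ^ 1 * v ^ 0 * (1 - v) ^ 6 + (346007411/12960000) * s ^ 3 * (1 - s) ^ 1 * v ^ 1 * (1 - v) ^ 5 + (4725052573/51840000) * s ^ 3 * (1 - s) ^ 1 * v ^ 2 *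 (1 - v) ^ 4 + (1418460079/8640000) * s ^ 3 * (1 - s) ^ 1 * v ^ 3 * (1 - v) ^ 3 + (705581041/4320000) * s ^ 3 * (1 - s) ^ 1 * v ^ 4 * (1 - v) ^ 2 + (110157079/1296000) * s ^ 3 * (1 - s) ^ 1 * v ^ 5 * (1 - v) ^ 1 + (14663189/810000) * s ^ 3 * (1 - s) ^ 1 * v ^ 6 * (1 - v) ^ 0 + (162741089/115200000) * s ^ 4 * (1 - s) ^ 0 * v ^ 0 * (1 - v) ^ 6 + (6986408959/518400000) * s ^ 4 * (1 - s) ^ 0 * v ^ 1 * (1 - v) ^ 5 + (5312299229/103680000) * s ^ 4 * (1 - s) ^ 0 * v ^ 2 * (1 - v) ^ 4 + (5144901737/51840000) * s ^ 4 * (1 - s) ^ 0 * v ^ 3 * (1 - v) ^ 3 + (2693705447/25920000) * s ^ 4 * (1 - s) ^ 0 * v ^ 4 * (1 - v) ^ 2 + (3639447017/64800000) * s ^ 4 * (1 - s) ^ 0 * v ^ 5 * (1 - v) ^ 1 + (66501773/5400000) * s ^ 4 * (1 - s) ^ 0 * v ^ 6 * (1 - v) ^ 0) := by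
    rw [hD, hz, hA, hd, hq]
    ring
  have := mul_nonneg hqn h
  linarith

end KN.PkFIN
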