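import Mathlib
import Pool.Agent.Helper97.RCK.Main

/-! Edge negative correlation for the random cluster model on complete graphs, definitions. -/

namespace KN

open Finset PowerSeries Pool.Agent.Helper97.RCK

/-- `F(x) = ∑ lam^(n(n-1)/2) x^n / n!`. -/
noncomputable def Fs (lam : ℝ) : PowerSeries ℝ :=
  PowerSeries.mk fun n => lam ^ (n * (n - 1) / 2) / (n.factorial : ℝ)

/-- `H = F' / F`. -/
noncomputable def Hs (lam : ℝ) : PowerSeries ℝ := d⁄dX ℝ (Fs lam) * (Fs lam)⁻¹

/-- `G(x) ↦ lam G(lam x)`; the coefficient of `x^a` is multiplied by `lam^(a+1)`. -/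
noncomputable def up (lam : ℝ) (G : PowerSeries ℝ) : PowerSeries ℝ :=
  C lam * rescale lam G

/-- the characteristic property of `Hs`. -/
def HP (lam : ℝ) (H : PowerSeries ℝ) : Prop :=
  constantCoeff H = 1 ∧ d⁄dX ℝ H = H * (up lam H - H)

/-- `Z = F^q`: the characteristic property. -/
def ZP (q : ℝ) (H Z : PowerSeries ℝ) : Prop :=
  constantCoeff Z = 1 ∧ d⁄dX ℝ Z = C q * (H * Z)

/-- three terminals in three clusters -/
noncomputable def ga (H Z : PowerSeries ℝ) (N : ℕ) : ℝ := coeff N (H ^ 3 * Z)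

/-- terminals 1 and 2 together, 3 apart -/
noncomputable def be (lam : ℝ) (H Z : PowerSeries ℝ) (N : ℕ) : ℝ :=
  coeff N (H ^ 2 * (up lam H - H) * Z)

/-- the three terminals in one cluster -/
noncomputable def al (H Z : PowerSeries ℝ) (N : ℕ) : ℝ := coeff N (d⁄dX ℝ (d⁄dX ℝ H) * Z)

/-- sum of the numbers of non-terminal vertices in the three terminal clusters -/
noncomputable def mu (lam : ℝ) (H Z : PowerSeries ℝ) (N : ℕ) : ℝ :=
  3 * coeff N (X * (H ^ 3 * (up lam H - H)) * Z)

/-- weighted sum over configurations: three terminal clusters with `a, b, c` further vertices. -/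
noncomputable def T3 (H Z : PowerSeries ℝ) (N : ℕ) (f : ℕ → ℕ → ℕ → ℝ) : ℝ :=
  ∑ x ∈ antidiagonal N, ∑ y ∈ antidiagonal x.2, ∑ z ∈ antidiagonal y.2,
    (coeff x.1 Z * (coeff y.1 H * (coeff z.1 H * coeff z.2 H))) * f y.1 z.1 z.2

/-- `e` of a terminal cluster with `a` further vertices -/
noncomputable def ee (lam : ℝ) (a : ℕ) : ℝ := lam ^ (a + 1) - 1

/-- the symmetric cubic expression. -/
noncomputable def sg (x y z : ℝ) : ℝ :=
  (x + y + z) ^ 2 / 3 + (x ^ 2 * (y + z) + y ^ 2 * (x + z) + z ^ 2 * (x + y)) / 6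

/-- weight of the configurations with `k` wired vertices on one side and another wired pair,
on `N` vertices. -/
noncomputable def Yn (q w : ℝ) : ℕ → ℕ → ℝ
  | 0, _ => 0
  | N + 1, 0 => q * phi q w (N + 1) 2
  | N + 1, k + 1 => (1 + w) ^ k *
      ((step w)^[N - 2 - k] (fun i => Yn q w N i + (2 * w + w ^ 2) * phi q w N (i + 2))) k

/-- root joined to the two special vertices with weights `x`, `y`. -/
noncomputable def An (q w : ℝ) (N : ℕ) (x y : ℝ) (k : ℕ) : ℝ :=
  phi q w N k + (x + y) * phi q w N (k + 1) + x * y * phi q w N (k + 2)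

/-- the same with the two special vertices wired. -/
noncomputable def Un (q w : ℝ) (N : ℕ) (x y : ℝ) (k : ℕ) : ℝ :=
  Yn q w N k + (x + y + x * y) * phi q w N (k + 2)

/-- partition function with the edge `ab` open. -/
noncomputable def Psi {V : Type} [Fintype V] [DecidableEq V] (q w : ℝ) (R T : Finset V)
    (a b : V) : ℝ :=
  ∑ S ∈ (E Rᶜ).powerset with s(a, b) ∈ S, w ^ S.card * q ^ kap (R ∪ T) S

/-- the final inequality `J` for the sequence `phi q w N`. -/
def JB (q w : ℝ) (N : ℕ) : Prop :=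
  (phi q w N 2 - phi q w N 1) * (phi q w N 2 - q * phi q w N 3) ≤
    4 * (phi q w N 2 ^ 2 - phi q w N 1 * phi q w N 3)

end KN
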