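import Pool.Agent.Helper26.KN.Goals
import Pool.Agent.Helper26.KN.Cert

/-! The final inequality `G_FIN`. -/

namespace KN.PkFIN

open KN

theorem exp_neg_lower (z : ℝ) (hz : 0 ≤ z) (hz1 : z ≤ 4 / 9) :
    1 - z + 17 / 40 * z ^ 2 ≤ Real.exp (-z) := by
  have h := Real.exp_bound' hz (by linarith) (n := 4) (by norm_num)
  have e1 : ∑ m ∈ Finset.range 4, z ^ m / (m.factorial : ℝ) = 1 + z + z ^ 2 / 2 + z ^ 3 / 6 := by
    simp [Finset.sum_range_succ, Nat.factorial]
  rw [e1] at h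
  have h2 : Real.exp z ≤ 1 + z + z ^ 2 / 2 + z ^ 3 / 6 + 5 / 96 * z ^ 4 := by
    refine h.trans (le_of_eq ?_)
    norm_num [Nat.factorial]
    ring
  have hp : 0 < Real.exp z := Real.exp_pos z
  have h3 : (1 - z + 17 / 40 * z ^ 2) * Real.exp z ≤ 1 := by
    have h4 : 0 ≤ 1 - z + 17 / 40 * z ^ 2 := by nlinarith
    have h5 := mul_le_mul_of_nonneg_left h2 h4
    refine h5.trans ?_
    have h6 : (1 - z + 17 / 40 * z ^ 2) * (1 + z + z ^ 2 / 2 + z ^ 3 / 6 + 5 / 96 * z ^ 4) =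
        1 - z ^ 2 * (3 / 40 - 11 / 120 * z - 47 / 480 * z ^ 2 - 3 / 160 * z ^ 3
          - 17 / 768 * z ^ 4) := by ring
    rw [h6]
    have h7 : z ^ 2 ≤ (4 / 9) ^ 2 := by gcongr
    have h8 : z ^ 3 ≤ (4 / 9) ^ 3 := by gcongr
    have h9 : z ^ 4 ≤ (4 / 9) ^ 4 := by gcongr
    have h10 : 0 ≤ 3 / 40 - 11 / 120 * z - 47 / 480 * z ^ 2 - 3 / 160 * z ^ 3
          - 17 / 768 * z ^ 4 := by
      norm_num at h7 h8 h9
      linarith
    have h11 : 0 ≤ z ^ 2 := by positivity
    nlinarith [mul_nonneg h11 h10]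
  rw [Real.exp_neg, ← one_div, le_div_iff₀ hp]
  exact h3

theorem finq (L x q D S : ℝ) (hL : 0 < L) (hx : 0 < x) (hxq : x = 3 * L - 4 / 3 * q)
    (hq : 0 ≤ q) (hq1 : q ≤ 1) (hD : Real.exp (x / 3) - 1 ≤ D)
    (hDA : 3 * D ≤ (Real.exp (3 * L) - 1) * (x / (3 * L))) (hS : 0 ≤ S)
    (hB : ∀ K eta : ℝ, 0 ≤ K → 0 ≤ eta →
      (Real.exp (3 * L) - 1) / 3 - eta * (1 - 3 * L / (Real.exp (3 * L) - 1)) ≤ K →
      (3 * (Real.exp L - 1) + (Real.exp (3 * L) - 1)) / 6 - eta * (1 - L / (Real.exp L - 1)) ≤ K →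
      S ≤ K * (3 * D - q * (x / (3 * L))) + eta * (3 * D - x)) :
    S * ((1 - q) * (4 + q) - 2 * (1 + q) * D) ≤ 12 * D ^ 2 + 2 * q * (1 + q) * D := by
  obtain ⟨d, hd⟩ : ∃ d, d = Real.exp L - 1 := ⟨_, rfl⟩
  have hdpos : 0 < d := by
    rw [hd]
    have := Real.add_one_lt_exp hL.ne'
    linarith
  have he : Real.exp L = 1 + d := by rw [hd]; ring
  have he3 : Real.exp (3 * L) = (1 + d) ^ 3 := by
    rw [← he, ← Real.exp_nat_mul]
    norm_num
  obtain ⟨A, hA⟩ : ∃ A, A = 3 * d + 3 * d ^ 2 + d ^ 3 := ⟨_, rfl⟩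
  have hA' : Real.exp (3 * L) - 1 = A := by rw [he3, hA]; ring
  have hApos : 0 < A := by rw [hA]; positivity
  obtain ⟨z, hz⟩ : ∃ z, z = 4 * q / 9 := ⟨_, rfl⟩
  have hz0 : 0 ≤ z := by rw [hz]; positivity
  have hz1 : z ≤ 4 / 9 := by rw [hz]; linarith
  have hxe : Real.exp (x / 3) = (1 + d) * Real.exp (-z) := by
    rw [← he, ← Real.exp_add]
    congr 1
    rw [hxq, hz]
    ring
  rw [hxe] at hD
  rw [hA'] at hDA hB
  rw [← hd] at hB
  have hD0 : 0 ≤ D := by
    have := Real.add_one_le_exp (x / 3)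
    rw [hxe] at this
    linarith
  have hDl : d - (1 + d) * z ≤ D := by
    have h1 := Real.add_one_le_exp (-z)
    have h2 : (1 + d) * (-z + 1) ≤ (1 + d) * Real.exp (-z) :=
      mul_le_mul_of_nonneg_left h1 (by linarith)
    linarith
  have hDl2 : d - (1 + d) * (z - 17 / 40 * z ^ 2) ≤ D := by
    have h1 := exp_neg_lower z hz0 hz1
    have h2 := mul_le_mul_of_nonneg_left h1 (by linarith : (0:ℝ) ≤ 1 + d)
    linarith
  have hR0 : 0 ≤ 12 * D ^ 2 + 2 * q * (1 + q) * D := by positivity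
  rcases le_or_gt ((1 - q) * (4 + q) - 2 * (1 + q) * D) 0 with hneg | hpos
  · exact (mul_nonpos_of_nonneg_of_nonpos hS hneg).trans hR0
  have hpe : (1 - q) * (4 + q) - 2 * (1 + q) * D = 4 - 3 * q - q ^ 2 - 2 * (1 + q) * D := by ring
  rw [hpe] at hpos ⊢
  have hd2 : d < 2 := by
    by_contra hcon
    push Not at hcon
    have h1 : 2 - 4 * q / 3 ≤ D := by
      have h2 : (1 - z) * 3 ≤ (1 - z) * (1 + d) := by
        apply mul_le_mul_of_nonneg_left _ (by linarith)
        linarith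
      rw [hz] at h2 hDl
      linarith
    have h3 : (1 + q) * (2 - 4 * q / 3) ≤ (1 + q) * D := mul_le_mul_of_nonneg_left h1 (by linarith)
    nlinarith
  have hLlog : L = Real.log (1 + d) := by rw [← he, Real.log_exp]
  have hLlow : 2 * d / (d + 2) ≤ L := by
    rw [hLlog]
    exact Real.le_log_one_add_of_nonneg hdpos.le
  have hLd : 2 * d ≤ L * (d + 2) := by
    rwa [div_le_iff₀ (by linarith)] at hLlow
  rcases le_or_gt q (20 / 19 * d) with hI | hII
  · -- regime I
    obtain ⟨u, hu⟩ : ∃ u, u = d / L := ⟨_, rfl⟩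
    have huL : u * L = d := by rw [hu]; field_simp
    have hu0 : 0 < u := by rw [hu]; positivity
    have hu1 : u ≤ 1 + d / 2 := by
      rw [hu, div_le_iff₀ hL]
      linarith
    have hdA : d * A / (6 * L) = u * A / 6 := by rw [hu]; field_simp
    obtain ⟨K, hK⟩ : ∃ K, K = A / 3 + d / 2 - u * A / 6 := ⟨_, rfl⟩
    have hK0 : 0 ≤ K := by
      rw [hK]
      have : u * A ≤ (1 + d / 2) * A := mul_le_mul_of_nonneg_right hu1 hApos.le
      nlinarith
    have e1 : u * A / 6 * (3 * L / A) = d / 2 := by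
      rw [← huL]; field_simp; norm_num
    have e2 : u * A / 6 * (L / d) = A / 6 := by
      rw [← huL]; field_simp
    have h1 := hB K (u * A / 6) hK0 (by positivity)
      (by
        have : u * A / 6 * (1 - 3 * L / A) = u * A / 6 - u * A / 6 * (3 * L / A) := by ring
        rw [this, e1, hK]
        linarith)
      (by
        have : u * A / 6 * (1 - L / d) = u * A / 6 - u * A / 6 * (L / d) := by ring
        rw [this, e2, hK]
        linarith)
    obtain ⟨y, hy⟩ : ∃ y, y = x / (3 * L) := ⟨_, rfl⟩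
    have hxy : x = 3 * L * y := by rw [hy]; field_simp
    have hy0 : 0 < y := by rw [hy]; positivity
    have hyL : y = 1 - 4 * q / (9 * L) := by
      rw [hy, hxq]; field_simp; ring
    rw [← hy] at h1
    obtain ⟨T, hT⟩ : ∃ T, T = y * (K * q + d * A / 2) := ⟨_, rfl⟩
    have h2 : S ≤ (A + 3 / 2 * d) * D - T := by
      refine h1.trans (le_of_eq ?_)
      have e3 : u * A / 6 * x = y * (d * A / 2) := by
        rw [hxy, ← huL]; ring
      have : u * A / 6 * (3 * D - x) = u * A / 6 * (3 * D) - u * A / 6 * x := by ring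
      rw [this, e3, hT, hK]
      ring
    obtain ⟨T1, hT1⟩ : ∃ T1, T1 = (9 * d - 4 * q - 2 * q * d) *
      (A / 2 + q + q * d / 4 - q * d ^ 2 / 12 - q * d ^ 3 / 12) / 9 := ⟨_, rfl⟩
    have hTT : T1 ≤ T := by
      have hW : q * (d + d ^ 2 / 4 - d ^ 3 / 12 - d ^ 4 / 12) + d * A / 2 ≤ K * q + d * A / 2 := by
        have h3 : d + d ^ 2 / 4 - d ^ 3 / 12 - d ^ 4 / 12 ≤ K := by
          rw [hK]
          have : u * A ≤ (1 + d / 2) * A := mul_le_mul_of_nonneg_right hu1 hApos.le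
          have e4 : (1 + d / 2) * A = 3 * d + 9 / 2 * d ^ 2 + 5 / 2 * d ^ 3 + d ^ 4 / 2 := by
            rw [hA]; ring
          rw [e4] at this
          rw [hA] at *
          linarith
        nlinarith [mul_le_mul_of_nonneg_left h3 hq]
      have hW0 : 0 ≤ q * (d + d ^ 2 / 4 - d ^ 3 / 12 - d ^ 4 / 12) + d * A / 2 := by
        have h4 : 0 ≤ d + d ^ 2 / 4 - d ^ 3 / 12 - d ^ 4 / 12 := by
          have h5 : d ^ 2 ≤ 2 ^ 2 := by gcongr
          have h6 : d ^ 3 ≤ 2 ^ 3 := by gcongr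
          have h7 : d * d ^ 2 ≤ d * 2 ^ 2 := mul_le_mul_of_nonneg_left h5 hdpos.le
          have h8 : d * d ^ 3 ≤ d * 2 ^ 3 := mul_le_mul_of_nonneg_left h6 hdpos.le
          have h9 : d ^ 3 = d * d ^ 2 := by ring
          have h10 : d ^ 4 = d * d ^ 3 := by ring
          nlinarith [sq_nonneg d]
        positivity
      have hy1 : (9 * d - 4 * q - 2 * q * d) / (9 * d) ≤ y := by
        rw [hyL]
        have e5 : (9 * d - 4 * q - 2 * q * d) / (9 * d) = 1 - 4 * q * (1 + d / 2) / (9 * d) := by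
          field_simp; ring
        have e6 : 4 * q / (9 * L) = 4 * q * u / (9 * d) := by
          rw [← huL]; field_simp
        rw [e5, e6]
        have : 4 * q * u / (9 * d) ≤ 4 * q * (1 + d / 2) / (9 * d) := by gcongr
        linarith
      have hT1' : T1 = (9 * d - 4 * q - 2 * q * d) / (9 * d) *
          (q * (d + d ^ 2 / 4 - d ^ 3 / 12 - d ^ 4 / 12) + d * A / 2) := by
        rw [hT1]; field_simp; ring
      rw [hT1', hT]
      calc (9 * d - 4 * q - 2 * q * d) / (9 * d) *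
          (q * (d + d ^ 2 / 4 - d ^ 3 / 12 - d ^ 4 / 12) + d * A / 2)
          ≤ y * (q * (d + d ^ 2 / 4 - d ^ 3 / 12 - d ^ 4 / 12) + d * A / 2) :=
            mul_le_mul_of_nonneg_right hy1 hW0
        _ ≤ _ := mul_le_mul_of_nonneg_left hW hy0.le
    have h3 : S ≤ (A + 3 / 2 * d) * D - T1 := by linarith
    have h4 := regI d A T1 D (d - 19 / 20 * q) q (D - (d - 4 * q / 9 * (1 + d)))
      (by linarith) hq hq1 (by rw [hz] at hDl; linarith) (by ring) hA hT1 (by ring)
    refine (mul_le_mul_of_nonneg_right h3 hpos.le).trans ?_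
    exact h4
  · -- regime II
    have hqpos : 0 < q := by linarith
    have h1 := hB (A / 3) 0 (by positivity) le_rfl (by linarith)
      (by rw [hA]; nlinarith [sq_nonneg d, pow_pos hdpos 3])
    have h2 : S ≤ (A - q) * D := by
      have h3 := mul_le_mul_of_nonneg_left hDA hq
      have e1 : A / 3 * (3 * D - q * (x / (3 * L))) + 0 * (3 * D - x) =
          A * D - q * (A * (x / (3 * L))) / 3 := by ring
      rw [e1] at h1
      linarith
    have h5 : S * (4 - 3 * q - q ^ 2 - 2 * (1 + q) * D) ≤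
        (A - q) * D * (4 - 3 * q - q ^ 2 - 2 * (1 + q) * D) :=
      mul_le_mul_of_nonneg_right h2 hpos.le
    have key : (A - q) * (4 - 3 * q - q ^ 2 - 2 * (1 + q) * D) ≤ 12 * D + 2 * q * (1 + q) := by
      obtain ⟨D1, hD1⟩ : ∃ D1, D1 = d - (1 + d) * (z - 17 / 40 * z ^ 2) := ⟨_, rfl⟩
      have hDD : D1 ≤ D := by rw [hD1]; exact hDl2
      obtain ⟨s, hs⟩ : ∃ s, s = d / (19 / 20 * q) := ⟨_, rfl⟩
      have hs0 : 0 ≤ s := by rw [hs]; positivity
      have hs1 : s ≤ 1 := by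
        rw [hs, div_le_one (by positivity)]
        linarith
      have hds : d = 19 / 20 * q * s := by rw [hs]; field_simp
      have k1 : (A - q) * (4 - 3 * q - q ^ 2 - 2 * (1 + q) * D1) ≤ 12 * D1 + 2 * q * (1 + q) := by
        rcases le_or_gt q (1 / 4) with hq4 | hq4
        · exact cell0 d A D1 z q s (4 * q) hs0 hs1 (by positivity) (by linarith)
            (by ring) hds hA hz hD1
        · rcases le_or_gt q (1 / 2) with hq2 | hq2
          · exact cell1 d A D1 z q s (4 * (q - 1 / 4)) hs0 hs1 (by linarith) (by linarith)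
              (by ring) hds hA hz hD1
          · exact cell2 d A D1 z q s (2 * (q - 1 / 2)) hs0 hs1 (by linarith) (by linarith)
              (by ring) hds hA hz hD1
      have k2 : 0 ≤ 12 + 2 * (1 + q) * (A - q) := by nlinarith
      have k3 := mul_le_mul_of_nonneg_left hDD k2
      linarith
    have h6 := mul_le_mul_of_nonneg_right key hD0
    calc _ ≤ _ := h5
      _ = (A - q) * (4 - 3 * q - q ^ 2 - 2 * (1 + q) * D) * D := by ring
      _ ≤ _ := h6
      _ = _ := by ring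

theorem fin : G_FIN := by
  intro L x q D S hL hx hx3 hq0 hq1 hD hDA hS hB
  obtain ⟨q0, hq0'⟩ : ∃ q0, q0 = 3 / 4 * (3 * L - x) := ⟨_, rfl⟩
  rw [← hq0'] at hq0
  have h0 : 0 ≤ q0 := by rw [hq0']; linarith
  have hD0 : 0 ≤ D := by
    have := Real.add_one_le_exp (x / 3)
    linarith
  have h1 := finq L x q0 D S hL hx (by rw [hq0']; ring) h0 (hq0.trans hq1) hD hDA hS (by
    intro K eta hK he c1 c2
    have := hB K eta hK he c1 c2
    rw [hq0']
    exact this)
  have h2 : q0 ^ 2 ≤ q ^ 2 := by nlinarith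
  have h3 : 2 * q0 * (1 + q0) * D ≤ 2 * q * (1 + q) * D := by
    apply mul_le_mul_of_nonneg_right _ hD0
    nlinarith
  have h4 : S * ((1 - q) * (4 + q) - 2 * (1 + q) * D) ≤
      S * ((1 - q0) * (4 + q0) - 2 * (1 + q0) * D) := by
    apply mul_le_mul_of_nonneg_left _ hS
    nlinarith [mul_le_mul_of_nonneg_right hq0 hD0]
  linarith

end KN.PkFIN
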