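import Pool.Agent.Helper26.KN.Defs

/-! Goals (statements only, with proofs in the docstrings). -/

namespace KN

open Finset PowerSeries Pool.Agent.Helper97.RCK

/-- Basic identities. (1) d/dX (Fs lam) = rescale lam (Fs lam): coefficient n of the left side is
lam^((n+1)n/2)/(n+1)! * (n+1), and (n+1)n/2 = n(n-1)/2 + n. (2) HP lam (Hs lam), i.e. constant
coefficient 1 and H' = H (lam H(lam x) - H): H = F' F^(-1) with F' = rescale lam F; F has constant
coefficient 1, so F * F^(-1) = 1 (PowerSeries.mul_inv_cancel), and H F = F' = rescale lam F. Differentiate: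
H' F + H F' = (rescale lam F)' = C lam * rescale lam (F') = C lam * rescale lam (H F) =
C lam * rescale lam H * rescale lam F = up lam H * (H F). As F' = H F this gives
(H' - H (up lam H - H)) F = 0, cancel F (domain, F not 0). The rule (rescale lam G)' = C lam * rescale lam (G')
is coefficientwise (coeff n of (rescale lam G)' = lam^(n+1) G_(n+1) (n+1)). -/
def G_FD : Prop := ∀ lam : ℝ, d⁄dX ℝ (Fs lam) = rescale lam (Fs lam) ∧ HP lam (Hs lam)

/-- Existence of Z: for all q and H there is Z with constant coefficient 1 and Z' = C q * (H * Z).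
Define the coefficients recursively: z 0 = 1, (R+1) z (R+1) = q * sum over (i,j) in antidiagonal R of
(coeff i H) (z j); well-founded recursion (e.g. z (R+1) = q/(R+1) * sum over i : Fin (R+1) of
coeff (R-i) H * z i, as in Nat.bell / catalan), then ext and PowerSeries.coeff_derivative, coeff_mul. -/
def G_ZX : Prop := ∀ (q : ℝ) (H : PowerSeries ℝ), ∃ Z : PowerSeries ℝ, ZP q H Z

/-- Positivity of all coefficients. H: H' = H (up lam H - H) says
(a+1) H_(a+1) = sum over (i,j) in antidiagonal a of H_i * (lam^(j+1) - 1) H_j, strong induction on a,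
H_0 = 1, lam > 1. Z: (R+1) Z_(R+1) = q * sum over antidiagonal R of H_i Z_j, Z_0 = 1, q > 0. -/
def G_POS : Prop := ∀ (lam q : ℝ) (H Z : PowerSeries ℝ), 1 < lam → 0 < q → HP lam H → ZP q H Z →
  (∀ a, 0 < coeff a H) ∧ ∀ R, 0 < coeff R Z

/-- The numbers phi as coefficients: for k <= N,
phi q w N k = (N-k)! * coeff (N-k) (F^(k) * F^(-1) * Z), F^(k) the k-th derivative of F = Fs (1+w)
(Function.iterate of the derivation). Proof by induction on N; write G_k = F^(k) F^(-1), so G_0 = 1 and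
G_1 = Hs. N = 0: phi 0 0 = 1 = Z_0. Step, index k = j+1 <= N+1: by definition
phi (N+1) (j+1) = (1+w)^j * ((step w)^[N-j] (phi N)) j and ((step w)^[M] b) j = sum over i <= M of
C(M,i) w^i b (j+i) (binomial formula for the iterate of step, induction on M; see also sum_pow_card in
Pool.Agent.Helper97.RCK). With M = N - j and the induction hypothesis (j + i <= N) the claim becomes
coeff M (G_(j+1) Z) = (1+w)^j * sum over i <= M of (w^i / i!) coeff (M-i) (G_(j+i) Z),
which follows from the identity of power series F^(j+1) = C((1+w)^j) * sum_(i <= M) C(w^i/i!) X^i F^(j+i) up to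
order X^(M+1): coefficient m <= M of F^(j) is lam^((m+j)(m+j-1)/2)/m!, lam = 1+w, and with
(m+j+1)(m+j)/2 = (m+j)(m+j-1)/2 + (m+j): coeff m F^(j+1) = lam^j * lam^m * coeff m F^(j) and
lam^m/m! = sum_(i <= m) w^i/(i! (m-i)!) (binomial theorem), coeff (m-i) F^(j+i) = lam^((m+j)(m+j-1)/2)/(m-i)!.
Then multiply by F^(-1) Z and compare coefficient M. Index 0: phi (N+1) 0 = q * phi (N+1) 1 (definition) =
q * N! * coeff N (G_1 Z) = (N+1)! * coeff (N+1) Z by Z' = q H Z. -/
def G_PHI : Prop := ∀ (q w : ℝ) (Z : PowerSeries ℝ), 0 < w → ZP q (Hs (1 + w)) Z →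
  ∀ N k : ℕ, k ≤ N → phi q w N k = ((N - k).factorial : ℝ) *
    coeff (N - k) (((⇑(d⁄dX ℝ))^[k] (Fs (1 + w))) * (Fs (1 + w))⁻¹ * Z)

/-- phi q w (N+3) k for k = 1, 2, 3 in terms of al, be, ga: with n = N+3, G_k = F^(k) F^(-1):
G_1 = H, G_2 = H' + H^2, G_3 = G_2' + G_2 H = H'' + 3 H H' + H^3 (from (F^(k))' = F^(k+1) and
(F^(-1))' = - F' F^(-2), or from G_k F = F^(k) differentiated and F cancelled). Put D = coefficient. With
Z' = q H Z: phi 3 = N! coeff N (G_3 Z) = N! (al + 3 be + ga) as coeff N (H'' Z) = al, H H' = H^2 (up H - H).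
phi 2 = (N+1)! coeff (N+1) (G_2 Z) = N! coeff N ((G_2 Z)') = N! coeff N (H'' Z + 2 H H' Z + (H' + H^2) q H Z) =
N! (al + (2+q) be + q ga). phi 1 = (N+2)! coeff (N+2) (H Z) = N! coeff N ((H Z)'') =
N! coeff N (H'' Z + 3 q H H' Z + q^2 H^3 Z). (coeff n (G') = (n+1) coeff (n+1) G.) -/
def G_B123 : Prop := ∀ (q w : ℝ) (Z : PowerSeries ℝ), 0 < w → ZP q (Hs (1 + w)) Z → ∀ N : ℕ,
  phi q w (N + 3) 3 = (N.factorial : ℝ) *
    (al (Hs (1 + w)) Z N + 3 * be (1 + w) (Hs (1 + w)) Z N + ga (Hs (1 + w)) Z N) ∧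
  phi q w (N + 3) 2 = (N.factorial : ℝ) *
    (al (Hs (1 + w)) Z N + (2 + q) * be (1 + w) (Hs (1 + w)) Z N + q * ga (Hs (1 + w)) Z N) ∧
  phi q w (N + 3) 1 = (N.factorial : ℝ) *
    (al (Hs (1 + w)) Z N + 3 * q * be (1 + w) (Hs (1 + w)) Z N + q ^ 2 * ga (Hs (1 + w)) Z N)

/-- Values of the three-terminal functional. Basic tool: for functions u v t,
T3 H Z N (fun a b c => u a * v b * t c) = coeff N (Z * (mk (H_a u a) * (mk (H_b v b) * mk (H_c t c))))
(PowerSeries.coeff_mul three times). mk (H_a lam^(a+1)) = up lam H, mk (H_a lam^(2(a+1))) = up lam (up lam H)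
=: P2, mk(H_a (lam^(a+1) - 1)) = up lam H - H. (1) clear. (2) commutativity. (3) with P = up lam H,
E = P - H: H' = H E, P' = C lam * up lam (H') = up lam H * (P2 - P) [rescale is multiplicative, and
C lam * rescale lam (H E) * C lam = ...], so E' = P (P2 - P) - H (P - H) and
H'' = H (E^2 + E') = H P P2 - 3 H^2 P + 2 H^3. Expanding sg with e = lam^(a+1) - 1 etc, A = lam^(a+1), B, C:
sg = (1/6) (A^2 B + A^2 C + B^2 A + B^2 C + C^2 A + C^2 B) - (A + B + C) + 2 (ring identity); each of the six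
products gives coeff N (Z H P P2). (4) mk (H_a a) = X H' = X H E. (5) with R = N - (a+b+c), i.e. R = x.1:
T3 (R (ea + eb + ec)) = 3 coeff N (H^2 E * X Z') = 3 q coeff N (X H^3 E Z) = q mu, and
a + b + c = N - R inside T3. -/
def G_T3 : Prop := ∀ (lam q : ℝ) (H Z : PowerSeries ℝ), HP lam H → ZP q H Z → ∀ N : ℕ,
  T3 H Z N (fun _ _ _ => 1) = ga H Z N ∧
  T3 H Z N (fun a b c => ee lam a + ee lam b + ee lam c) = 3 * be lam H Z N ∧
  T3 H Z N (fun a b c => sg (ee lam a) (ee lam b) (ee lam c)) = al H Z N ∧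
  T3 H Z N (fun a b c => (a + b + c : ℝ)) = mu lam H Z N ∧
  T3 H Z N (fun a b c => (a + b + c : ℝ) * (ee lam a + ee lam b + ee lam c)) =
    N * (3 * be lam H Z N) - q * mu lam H Z N

/-- The chain inequality w E_3[m] <= 4 D_4 in quadratic form. Put n = N + 3, w = lam - 1,
pi k = coeff (n-k) (H^k Z), eps k = coeff (n-k) (H^(k-1) (up lam H - H) Z) for 1 <= k <= n (all > 0 by
positivity of the coefficients). (a) for k < n: (n-k) pi k = k eps (k+1) + q pi (k+1): derivative of H^k Z,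
H' = H (up H - H), Z' = q H Z. (b) for k < n: eps k >= w (pi k + eps (k+1)): the coefficient of
up lam H - H is (lam^(a+1) - 1) H_a >= w (a+1) H_a = w * coefficient of (H + X H'), coefficientwise
inequality times series with nonnegative coefficients, and H^(k-1) * X H' = X H^k (up H - H) gives eps (k+1).
pi n = 1, eps n = w. Claim P k (1 <= k < n): w k (pi k + eps (k+1)) pi (k+1) <= (k+1) eps (k+1) pi k.
Put D = eps (k+1)/pi (k+1), so by (a) pi k = pi (k+1) (q + k D)/(n-k) and P k is equivalent to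
G_k(D) := k(k+1) D^2 + (k+1) q D - k w n D - k w q >= 0. k = n-1: D = w: (n-1) n w^2 + n q w - (n-1) w^2 n -
(n-1) w q = q w >= 0. Step: assume P (k+1) and let D0 = w (pi (k+1) + eps (k+2))/pi (k+1) <= D by (b)
(D0 >= w). P (k+1) says (k+1) w (pi(k+1) + eps(k+2)) pi (k+2) <= (k+2) eps(k+2) pi(k+1), and with
eps(k+2)/pi(k+1) = D0/w - 1, q pi(k+2)/pi(k+1) = n - k - 1 - (k+1)(D0/w - 1) = n - (k+1) D0/w it becomes
(k+1) D0 (n w - (k+1) D0) <= (k+2) q (D0 - w). Times k/(k+1): this gives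
G_k(D0) >= q D0/(k+1) + k q w/(k+1) >= 0, and G_k(0) <= 0, so G_k is >= 0 at D >= D0 as well (G_k(D) - (D/D0)
G_k(D0) = k(k+1) D (D - D0) + k w q (D/D0 - 1) >= 0). Finally P 3 with pi 3 = ga, 3 eps 4 = mu,
q pi 4 = N ga - mu (case N >= 1): w (3 ga + mu) (N ga - mu) * 3 <= 4 q ga mu. N = 0: mu = 0. -/
def G_CH : Prop := ∀ (lam q : ℝ) (H Z : PowerSeries ℝ), 1 < lam → 0 < q → HP lam H → ZP q H Z →
  ∀ N : ℕ, 3 * (lam - 1) * (3 * ga H Z N + mu lam H Z N) * (N * ga H Z N - mu lam H Z N) ≤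
    4 * q * ga H Z N * mu lam H Z N ∧ 0 ≤ mu lam H Z N ∧ mu lam H Z N ≤ N * ga H Z N

/-- phi(t) = 1/t - 1/(e^t - 1) is nonincreasing, and two convexity facts, for 0 < s <= t.
(1): derivative -1/t^2 + e^t/(e^t-1)^2 <= 0 since t e^(t/2) <= e^t - 1, i.e. t/2 <= sinh(t/2)
(antitoneOn_of_deriv_nonpos on (0, oo)). (2): convexity of exp: e^s - 1 <= (s/t)(e^t - 1). -/
def G_PH : Prop := ∀ s t : ℝ, 0 < s → s ≤ t →
  1 / t - 1 / (Real.exp t - 1) ≤ 1 / s - 1 / (Real.exp s - 1) ∧
  Real.exp s - 1 ≤ s / t * (Real.exp t - 1)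

/-- Pointwise bound: for x, y, z >= 0 (x = a-1 etc.), with s = x+y+z and p = (1+x)(1+y)(1+z) - 1:
sg x y z <= s (s + p)/6 (the difference is xyz (s+3)/6: with p1, p2, p3 elementary symmetric,
sg = p1^2/3 + p1 p2/6 - p3/2 and p = p1 + p2 + p3), s <= p, and s >= 3 (e^(t/3) - 1) if 1 + p = e^t
(AM-GM for three numbers, e.g. Real.inner_le_nnorm_mul_nnorm is not needed: use
Real.add_pow_le_pow_mul_pow_of_add_eq_one / inner_le... or: with g = e^(t/3), abc = g^3 implies
a + b + c >= 3 g by nlinarith or Real.geom_mean_le_arith_mean3_weighted). -/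
def G_PT : Prop := ∀ x y z t : ℝ, 0 ≤ x → 0 ≤ y → 0 ≤ z →
  (1 + x) * (1 + y) * (1 + z) = Real.exp t →
  sg x y z ≤ (x + y + z) * ((x + y + z) + (Real.exp t - 1)) / 6 ∧
  x + y + z ≤ Real.exp t - 1 ∧ 3 * (Real.exp (t / 3) - 1) ≤ x + y + z

/-- The pointwise inequality used in the main estimate. Put A = e^(3L) - 1, d = e^L - 1, y = l/(3L) in (0,1],
p = e^l - 1, de = e^(l/3) - 1, s = x1+x2+x3 in [3 de, p]. By G_PT it suffices that
Q(s) := s (s+p)/6 - K y s - eta (s - l) <= 0 on [3 de, p]; Q is convex, so check the end points.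
s = p: with K >= A/3 - eta (1 - 3L/A) and eta >= 0: K y p + eta (p - l) >= y A p/3 + eta (p (1-y) - l (1 - p/A))
(use 3 L y = l); y A >= p by G_PH (2) (s = l, t = 3L), and p (1-y) >= l (1 - p/A) is G_PH (1) for
(l, 3L) multiplied by p l (1/l - 1/(3L) >= 1/p - 1/A). So it is >= p^2/3. s = 3 de: with
K >= (3d + A)/6 - eta (1 - L/d): 3 K y de + eta (3 de - l) >= y de (3d + A)/2 + eta (3 de (1-y) - l (1 - de/d));
y d >= de and y A >= p by G_PH (2), and de (1-y) >= (l/3)(1 - de/d) is G_PH (1) for (l/3, L). So it is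
>= de (3 de + p)/2. -/
def G_PI : Prop := ∀ L l K eta x1 x2 x3 : ℝ, 0 < L → 0 < l → l ≤ 3 * L → 0 ≤ eta →
  (Real.exp (3 * L) - 1) / 3 - eta * (1 - 3 * L / (Real.exp (3 * L) - 1)) ≤ K →
  (3 * (Real.exp L - 1) + (Real.exp (3 * L) - 1)) / 6 - eta * (1 - L / (Real.exp L - 1)) ≤ K →
  0 ≤ x1 → 0 ≤ x2 → 0 ≤ x3 → (1 + x1) * (1 + x2) * (1 + x3) = Real.exp l →
  sg x1 x2 x3 ≤ K * (l / (3 * L)) * (x1 + x2 + x3) + eta * ((x1 + x2 + x3) - l)

/-- The polynomial/real-variable end game (I prove this one myself). -/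
def G_FIN : Prop := ∀ L x q D S : ℝ, 0 < L → 0 < x → x ≤ 3 * L → 3 / 4 * (3 * L - x) ≤ q → q ≤ 1 →
  Real.exp (x / 3) - 1 ≤ D → 3 * D ≤ (Real.exp (3 * L) - 1) * (x / (3 * L)) → 0 ≤ S →
  (∀ K eta : ℝ, 0 ≤ K → 0 ≤ eta →
    (Real.exp (3 * L) - 1) / 3 - eta * (1 - 3 * L / (Real.exp (3 * L) - 1)) ≤ K →
    (3 * (Real.exp L - 1) + (Real.exp (3 * L) - 1)) / 6 - eta * (1 - L / (Real.exp L - 1)) ≤ K →
    S ≤ K * (3 * D - 3 / 4 * (3 * L - x) * (x / (3 * L))) + eta * (3 * D - x)) →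
  S * ((1 - q) * (4 + q) - 2 * (1 + q) * D) ≤ 12 * D ^ 2 + 2 * q * (1 + q) * D

/-- Inequality J in terms of al, be, ga. Put g = ga > 0, D = be/g, S = al/g, M = 3 + mu/g, n = N+3,
tau = log lam > 0, L = n tau/3, x = tau M. All sums are T3 with the positive coefficients (G_POS), so T3 is
monotone. For a configuration (a,b,c) with a+b+c <= N put m = a+b+c+3, l = tau m in (0, 3L];
1 + ee lam a = lam^(a+1) and the product of the three is lam^m = e^l. (i) G_PI, T3 and G_T3:
al <= K (3 be n - q mu)/n + eta (3 be - tau (3 g + mu)) for all admissible K, eta [l/(3L) = m/n and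
T3 (m s) = 3*3 be + N * 3 be - q mu = 3 n be - q mu], i.e. S <= K (3 D - q (M-3)/n) + eta (3 D - x).
(ii) G_CH: 3 (lam-1) M (n - M) <= 4 q (M-3); as tau <= lam - 1 and K >= 0:
q (M-3)/n >= (3/4) tau M (n-M)/n = (3/4)(3L - x) (x/(3L)), and q >= (3/4)(3L - x) since
4 q (x - 3 tau) >= 3 x (3L - x) [multiply by tau] and x - 3 tau <= x (x > 0; q >= 0). 3 <= M <= n.
(iii) D >= e^(x/3) - 1: for every configuration (ea + eb + ec)/3 >= e^(l/3) - 1 (G_PT) >=
e^(x/3) (1 + (l - x)/3) - 1 (tangent line), apply T3/g, E[l] = x. (iv) 3 D <= A x/(3L), A = e^(3L) - 1: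
s <= e^l - 1 <= (l/(3L)) A (G_PT, G_PH) and E[l] = x. (v) G_FIN, multiply by g^2. S >= 0 as all is nonneg. -/
def G_J : Prop := ∀ (lam q : ℝ) (H Z : PowerSeries ℝ), 1 < lam → 0 < q → q ≤ 1 → HP lam H → ZP q H Z →
  ∀ N : ℕ, (1 - q) * (4 + q) * al H Z N * ga H Z N ≤ 12 * be lam H Z N ^ 2 +
    2 * (1 + q) * al H Z N * be lam H Z N + 2 * q * (1 + q) * be lam H Z N * ga H Z N

/-- J for phi: 4 (B2^2 - B1 B3) - (B2 - B1)(B2 - q B3) = (N!)^2 (1-q) (12 be^2 + 2(1+q) al be +
2 q (1+q) be ga - (1-q)(4+q) al ga) by G_B123 (ring), N = N' + 3. Assembly of G_FD, G_ZX, G_B123, G_J. -/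
def G_JB : Prop := ∀ (q w : ℝ), 0 < q → q ≤ 1 → 0 < w → ∀ N : ℕ, 3 ≤ N → JB q w N

/-- Monotone ratios, for sequences. By induction on N. N = 2: nothing. Step from N to N+1 (N >= 2), k >= 1
(write k = j+1, j + 4 <= N + 1, m = N - 2 - k >= 0... ) : with lam = 1+w, x' = x + w + x w, y' = y + w + y w,
A = An q w N x' y', U = Un q w N x' y' one has for all j with j + 3 <= N + 1
An q w (N+1) x y (j+1) = lam^j ((step w)^[N-2-j] A) j and Un q w (N+1) x y (j+1) = lam^j ((step w)^[N-2-j] U) j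
(definition of phi: phi (N+1) (j+1) = lam^j ((step w)^[N-j] (phi N)) j, phi (N+1) (j+2) = lam^(j+1)
((step w)^[N-j-1] (phi N)) (j+1), phi (N+1) (j+3) = lam^(j+2) ((step w)^[N-j-2] (phi N)) (j+2); step commutes
with the shift and (1+wE)^2 + (x+y) lam E (1+wE) + x y lam^2 E^2 = (1 + x' E)(1 + y' E); for U:
x' + y' + x' y' = lam^2 (x+y+xy) + 2w + w^2). If U_(i+1) A_i <= U_i A_(i+1) for i+3 <= N, with A, U > 0
(U >= 0 suffices; positivity of phi: phi_pos), then the same holds for step w U, step w A one index less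
(mediant), hence for the iterates; and comparing index j+1 with j+2 one needs
(step^[m] U)_(j+1) (step^[m+1] A)_j <= (step^[m+1] U)_j (step^[m] A)_(j+1), m = N-3-j, which after expanding
step^[m+1] = step (step^[m]) is (step^[m] U)_(j+1) (step^[m] A)_j <= (step^[m] U)_j (step^[m] A)_(j+1).
k = 0: with B_i = phi q w (N+1) i, B_0 = q B_1, Yn 0 = q B_2, Yn (N+1) 1 = B_2 (this needs a small
induction: Yn q w N 1 = phi q w N 2 for N >= 3 ... from the definition, ((step w)^[N-2] (fun i => Yn N i +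
(2w+w^2) phi N (i+2))) 0 and Yn ... ; if it is easier take it as a separate lemma), s1 = x+y, s2 = xy:
U_0 A_1 - U_1 A_0 = (q + s1 + s2) B2 (B1 + s1 B2 + s2 B3) - (B2 + (s1+s2) B3)((q+s1) B1 + s2 B2) =
(q s1 + s1^2 + s1 s2)(B2^2 - B1 B3) - s2 (B2 - B1)(B2 - q B3) >= 0 by s1^2 >= 4 s2, JB and
B2^2 >= B1 B3 (phi_LC). Remark on Yn N 1 = phi N 2: graph meaning: one wired vertex next to the wired pair is
the same as the pair as root, by relabelling; for numbers: both sides satisfy the same recursion? If you do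
not find a short proof, use the hypothesis version G_YB below. -/
def G_MONO : Prop := ∀ q w : ℝ, 0 < q → q ≤ 1 → 0 < w → (∀ N, 3 ≤ N → JB q w N) →
  (∀ N, 3 ≤ N → Yn q w N 1 = phi q w N 2) → ∀ N : ℕ, 2 ≤ N → ∀ x y : ℝ, 0 ≤ x → 0 ≤ y →
  ∀ k : ℕ, k + 3 ≤ N → Un q w N x y (k + 1) * An q w N x y k ≤ Un q w N x y k * An q w N x y (k + 1)

/-- Yn q w N 1 = phi q w N 2 for N >= 3: one wired vertex u and a wired pair {a,b}: the vertex u carries the
root, which is attached to nothing else, so this is the partition function of the complete graph on N vertices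
with a, b wired, divided by q. Graph proof through G_PSI: Psi q w R {u} a b = (w/(1+w)) Yn N 1 and
Psi q w R emptyset a b = (w/(1+w)) q phi N 2, and Psi q w R emptyset a b = q Psi q w R {u} a b by kap_flip
(as in Phi_zero). Take V = Fin N, R = emptyset, a, b, u = 0, 1, 2. -/
def G_YB : Prop := ∀ q w : ℝ, 0 < q → 0 < w → ∀ N : ℕ, 3 ≤ N → Yn q w N 1 = phi q w N 2

/-- The partition functions with the edge ab open. Same method as Phi_rec, Phi_zero, Phi_eq of
Pool.Agent.Helper97.RCK.Graph. (ii) If a in T (or b in T): S = S' + ab with ab not in S',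
kap (R ∪ T) (S' ∪ {ab}) = kap (R ∪ (T ∪ {a,b})) S' (kap_star, star a {b} = {ab}), and for a, b both in the wired
set adding ab does not change kap, so Phi q w R (T ∪ {a,b}) = (1+w) * sum over S' not containing ab; hence
Psi = (w/(1+w)) Phi q w R (T ∪ {a,b}) and Phi_eq. (i) a, b not in T: T = ∅: kap_flip for u = a gives
Psi R ∅ = q Psi R {a} = q (w/(1+w)) phi N 2 = (w/(1+w)) Yn N 0 (N >= 1). T nonempty, u in T: expose u as in
Phi_rec: Psi R T = (1+w)^(|T|-1) * sum over J ⊆ Rᶜ \ T of w^|J| Psi (insert u R) (T.erase u ∪ J) (the edges at u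
are not ab); split J by J ∩ {a,b}: J' ⊆ Rᶜ \ T \ {a,b} gives Psi (insert u R) (T.erase u ∪ J') + (2w + w^2)
(w/(1+w)) phi (N-1) (|T| - 1 + |J'| + 2), induction hypothesis for the first term, sum_pow_card and the
definition of Yn. Induction on N = card Rᶜ. -/
def G_PSI : Prop := ∀ (V : Type) [Fintype V] [DecidableEq V] (q w : ℝ) (N : ℕ) (R T : Finset V)
  (a b : V), 0 < w → Rᶜ.card = N → T ⊆ Rᶜ → a ≠ b → a ∈ Rᶜ → b ∈ Rᶜ →
  (a ∉ T → b ∉ T → Psi q w R T a b = w / (1 + w) * Yn q w N T.card) ∧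
  (a ∈ T ∨ b ∈ T → Psi q w R T a b = w / (1 + w) * phi q w N (insert a (insert b T)).card)

/-- Negative correlation of a root edge rv and an edge ab disjoint from it, arbitrary weights x at the root.
As in Helper97.RCK.Main (rcSum_eq, cc_eq, E_split/sum_E_split with u = r): with W = univ.erase r, N = card W,
sum over S of rcWeight = q * sum over T ⊆ W of (prod x over T) * phi q w N |T|, and with the restriction
s(a,b) ∈ S: q * sum over T of (prod x over T) * Psi q w {r} T a b (the star edges are not ab); the condition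
s(r,v) ∈ S is v ∈ T. Split T = T' ∪ T'' with T'' ⊆ {a,b}, T' ⊆ W \ {a,b}: sums over T' of (prod x) An(|T'|) resp.
(w/(1+w)) (prod x) Un(|T'|) with An, Un at (x a, x b) (G_PSI; note insert a (insert b T) has card |T'| + 2).
Then for a sequence f: sum over T' ⊆ insert v W' of (prod x) f |T'| = sum over T' ⊆ W' of (prod x)(f |T'| +
x v f (|T'|+1)), and sum over T' ⊆ W' of (prod x) f |T'| = (composition of step (x u), u in W') f 0. The claim
reduces to U1 A0 <= U0 A1 with A0 = sum (prod x) An |T'|, A1 = sum (prod x) An (|T'|+1) over T' ⊆ W' =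
W \ {a,b,v}, same for U: ratio monotonicity is preserved by each step (x u) with x u >= 0 (mediant, as in
G_MONO). |W'| = N - 3, indices used: up to N - 2. -/
def G_NCS : Prop := ∀ (V : Type) [Fintype V] [DecidableEq V] (r v a b : V) (x : V → ℝ) (q w : ℝ),
  0 < q → q ≤ 1 → 0 < w → (∀ u, 0 ≤ x u) → v ≠ r → a ≠ r → b ≠ r → a ≠ b → v ≠ a → v ≠ b →
  (∑ S ∈ (⊤ : SimpleGraph V).edgeFinset.powerset with (s(r, v) ∈ S ∧ s(a, b) ∈ S),
      rcWeight r x w q S) * (∑ S ∈ (⊤ : SimpleGraph V).edgeFinset.powerset, rcWeight r x w q S) ≤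
  (∑ S ∈ (⊤ : SimpleGraph V).edgeFinset.powerset with s(r, v) ∈ S, rcWeight r x w q S) *
  (∑ S ∈ (⊤ : SimpleGraph V).edgeFinset.powerset with s(a, b) ∈ S, rcWeight r x w q S)

/-- Statement in the style of the frozen statement S19737, for graphs G in which any two vertices other
than r are adjacent, an edge e = s(r,v) at r and another edge f which contains r or is disjoint from e. Put
w = p/(1-p), x u = w if G.Adj r u, else 0; p^|S| (1-p)^(m-|S|) = (1-p)^m w^|S| for S a subset of E(G), and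
rcWeight r x w q S = w^|S| q^(cc) for S a subset of E(G), = 0 for the other S in (⊤).edgeFinset.powerset (then some
root edge s(r,u) in S has x u = 0). So all four sums over G.edgeFinset.powerset are (1-p)^m times the sums over
(⊤).edgeFinset.powerset of rcWeight. If f = s(a,b) with a, b not r, f disjoint from e: G_NCS. If f = s(r,b):
Pool.Agent.Helper97.RCK.star_NA with A = {v}, B = {b}, f K = if v in K then 1 else 0, g K = if b in K then 1 else
0 (monotone), v not b since e not f; rcSum r x w q F is the sum of rcWeight * F (openNbrs r S), and v in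
openNbrs r S iff s(r,v) in S (v not r); turn the sums with filters into sums with if. -/
def G_FRZ : Prop := ∀ (V : Type) [Fintype V] [DecidableEq V] (G : SimpleGraph V) [DecidableRel G.Adj]
  (r : V) (p q : ℝ), (∀ u v : V, u ≠ v → u ≠ r → v ≠ r → G.Adj u v) → 0 < p → p < 1 → 0 < q → q < 1 →
  ∀ e ∈ G.edgeFinset, ∀ f ∈ G.edgeFinset, e ≠ f → r ∈ e → (r ∈ f ∨ ∀ v ∈ e, v ∉ f) →
  (∑ S ∈ G.edgeFinset.powerset with (e ∈ S ∧ f ∈ S),
      p ^ S.card * (1 - p) ^ (G.edgeFinset.card - S.card) *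
        q ^ Nat.card (SimpleGraph.fromEdgeSet (↑S : Set (Sym2 V))).ConnectedComponent) *
    (∑ S ∈ G.edgeFinset.powerset,
      p ^ S.card * (1 - p) ^ (G.edgeFinset.card - S.card) *
        q ^ Nat.card (SimpleGraph.fromEdgeSet (↑S : Set (Sym2 V))).ConnectedComponent) ≤
  (∑ S ∈ G.edgeFinset.powerset with e ∈ S,
      p ^ S.card * (1 - p) ^ (G.edgeFinset.card - S.card) *
        q ^ Nat.card (SimpleGraph.fromEdgeSet (↑S : Set (Sym2 V))).ConnectedComponent) *
    (∑ S ∈ G.edgeFinset.powerset with f ∈ S,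
      p ^ S.card * (1 - p) ^ (G.edgeFinset.card - S.card) *
        q ^ Nat.card (SimpleGraph.fromEdgeSet (↑S : Set (Sym2 V))).ConnectedComponent)

end KN
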