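import Pool.Agent.Helper26.KN.Goals
import Pool.Agent.Helper97.RCJ.Pair
import Pool.Agent.Helper97.RCJ.Link

/-! `G_PSI` and `JB` from the files of helper97. -/

namespace KN.PkPSI

open Finset Pool.Agent.Helper97.RCK KN

theorem jb (q w : ℝ) (hq : 0 < q) (hq1 : q ≤ 1) (hw : 0 < w) (N : ℕ) (hN : 3 ≤ N) :
    JB q w N := by
  obtain ⟨M, rfl⟩ : ∃ M, N = M + 3 := ⟨N - 3, by omega⟩
  have := Pool.Agent.Helper97.RCJ.J_ineq hq hq1 hw M
  unfold JB
  linarith

theorem Yn_eq_psi (q w : ℝ) (N k : ℕ) (hk : k + 2 ≤ N) :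
    Yn q w N k = Pool.Agent.Helper97.RCJ.psi q w N k := by
  induction N generalizing k with
  | zero => omega
  | succ N ih =>
    cases k with
    | zero => rw [Yn, Pool.Agent.Helper97.RCJ.psi]
    | succ j =>
      rw [Yn, Pool.Agent.Helper97.RCJ.psi]
      congr 1
      rw [Pool.Agent.Helper97.RCJ.iter_step, Pool.Agent.Helper97.RCJ.iter_step]
      refine Finset.sum_congr rfl (fun i hi => ?_)
      rw [Finset.mem_range] at hi
      rw [ih (j + i) (by omega)]

theorem Psi_link {V : Type} [Fintype V] [DecidableEq V] (q w : ℝ) (hw : 0 < w)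
    (R T : Finset V) {a b : V} (hab : a ≠ b) (ha : a ∈ Rᶜ) (hb : b ∈ Rᶜ) :
    Psi q w R T a b = w / (1 + w) * Pool.Agent.Helper97.RCJ.Psi q w R T a b := by
  have hmem : s(a, b) ∈ E Rᶜ := mem_E.2 ⟨⟨ha, hb⟩, hab⟩
  have hE : E Rᶜ = insert s(a, b) ((E Rᶜ).erase s(a, b)) := (Finset.insert_erase hmem).symm
  have hn : s(a, b) ∉ (E Rᶜ).erase s(a, b) := Finset.notMem_erase _ _
  have h1 : (1 + w) ≠ 0 := by positivity
  unfold Psi Pool.Agent.Helper97.RCJ.Psi
  rw [Finset.sum_filter, hE, Finset.sum_powerset_insert hn, Finset.sum_powerset_insert hn,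
    ← Finset.sum_add_distrib, ← Finset.sum_add_distrib, Finset.mul_sum]
  refine Finset.sum_congr rfl (fun S hS => ?_)
  rw [Finset.mem_powerset] at hS
  have hnS : s(a, b) ∉ S := fun h => hn (hS h)
  rw [if_neg hnS, if_pos (Finset.mem_insert_self _ _), Finset.card_insert_of_notMem hnS,
    Finset.insert_idem]
  field_simp
  ring

theorem psi : G_PSI := by
  intro V _ _ q w N R T a b hw hR hT hab ha hb
  rw [Psi_link q w hw R T hab ha hb]
  refine ⟨fun haT hbT => ?_, fun h => ?_⟩
  · congr 1
    rw [Pool.Agent.Helper97.RCJ.Psi_eq q w N R T hR hT (Finset.mem_sdiff.2 ⟨ha, haT⟩)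
      (Finset.mem_sdiff.2 ⟨hb, hbT⟩) hab, Yn_eq_psi]
    have h1 : insert a (insert b T) ⊆ Rᶜ :=
      Finset.insert_subset ha (Finset.insert_subset hb hT)
    have h2 := Finset.card_le_card h1
    rw [Finset.card_insert_of_notMem, Finset.card_insert_of_notMem hbT, hR] at h2
    · omega
    · rw [Finset.mem_insert]
      rintro (h | h)
      · exact hab h
      · exact haT h
  · congr 1
    have h1 : insert a (insert b T) ⊆ Rᶜ :=
      Finset.insert_subset ha (Finset.insert_subset hb hT)
    rw [← Phi_eq q w N R (insert a (insert b T)) hR h1]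
    unfold Pool.Agent.Helper97.RCJ.Psi Phi
    refine Finset.sum_congr rfl (fun S _ => ?_)
    congr 2
    rcases h with h | h
    · rw [Pool.Agent.Helper97.RCJ.kap_insert (Finset.mem_union_right _ h)]
      congr 1
      ext y
      simp only [mem_union, mem_insert, mem_singleton]
      constructor
      · tauto
      · rintro (hy | hy | hy | hy)
        · tauto
        · subst hy; tauto
        · tauto
        · tauto
    · rw [Pool.Agent.Helper97.RCJ.kap_insert' (Finset.mem_union_right _ h)]
      congr 1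
      ext y
      simp only [mem_union, mem_insert, mem_singleton]
      constructor
      · tauto
      · rintro (hy | hy | hy | hy)
        · tauto
        · tauto
        · subst hy; tauto
        · tauto

end KN.PkPSI
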