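import Pool.Agent.Helper26.KN.Psi
import Pool.Agent.Helper77.KN.NCS
import Pool.Agent.Helper33.KN.MONO
import Pool.Agent.Helper31.KN.YB

/-! Increasing functions of the star of the root against an edge of the complete graph. -/

namespace KN.Star

open Finset Pool.Agent.Helper97.RCK KN

set_option linter.unusedSectionVars false

variable {V : Type} [Fintype V] [DecidableEq V]

/-- the weighted sum. -/
noncomputable def WS (x : V → ℝ) (C : Finset V) (β : ℕ → ℝ) (f : Finset V → ℝ) : ℝ :=
  ∑ T ∈ C.powerset, ((∏ v ∈ T, x v) * β T.card) * f T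

theorem WS_eq (x : V → ℝ) (C : Finset V) (β : ℕ → ℝ) (f : Finset V → ℝ) :
    WS x C β f = ∑ i ∈ range (C.card + 1), ES x C f i * β i := by
  unfold WS ES
  rw [Finset.sum_powerset]
  refine Finset.sum_congr rfl (fun i _ => ?_)
  rw [Finset.sum_mul]
  refine Finset.sum_congr rfl (fun T hT => ?_)
  rw [(Finset.mem_powersetCard.1 hT).2]
  ring

theorem ratio {A U : ℕ → ℝ} {M : ℕ} (hA : ∀ k, 0 < A k)
    (h : ∀ k, k + 1 ≤ M → U (k + 1) * A k ≤ U k * A (k + 1)) {i j : ℕ} (hij : i ≤ j)
    (hj : j ≤ M) : U j * A i ≤ U i * A j := by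
  induction j, hij using Nat.le_induction with
  | base => exact le_rfl
  | succ j hij ih =>
    have h1 := ih (by omega)
    have h2 := h j hj
    have p1 := hA j
    have p2 := hA (j + 1)
    have p3 := hA i
    have h3 := mul_le_mul_of_nonneg_left h1 p2.le
    have h4 := mul_le_mul_of_nonneg_left h2 p3.le
    have h5 : (U (j + 1) * A i) * A j ≤ (U i * A (j + 1)) * A j := by nlinarith
    exact le_of_mul_le_mul_right h5 p1

theorem WS_pos {x : V → ℝ} (hx : ∀ v, 0 < x v) (C : Finset V) {A U : ℕ → ℝ}
    (hA : ∀ k, 0 < A k) (h : ∀ k, k + 1 ≤ C.card → U (k + 1) * A k ≤ U k * A (k + 1))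
    {f : Finset V → ℝ} (hf : Monotone f) :
    WS x C U f * WS x C A (fun _ => 1) ≤ WS x C A f * WS x C U (fun _ => 1) := by
  rw [WS_eq, WS_eq, WS_eq, WS_eq]
  apply cheb
  intro i j hij hj
  have h1 := ES_mono' hx C hf hij (by omega)
  have h2 := ratio hA h hij (by omega)
  apply mul_nonpos_of_nonpos_of_nonneg
  · linarith
  · linarith

theorem WS_nonneg {x : V → ℝ} (hx : ∀ v, 0 ≤ x v) (C : Finset V) {A U : ℕ → ℝ}
    (hA : ∀ k, 0 < A k) (h : ∀ k, k + 1 ≤ C.card → U (k + 1) * A k ≤ U k * A (k + 1))
    {f : Finset V → ℝ} (hf : Monotone f) :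
    WS x C U f * WS x C A (fun _ => 1) ≤ WS x C A f * WS x C U (fun _ => 1) := by
  have h1 : ∀ ε : ℝ, 0 < ε →
      WS (fun v => x v + ε) C U f * WS (fun v => x v + ε) C A (fun _ => 1) ≤
      WS (fun v => x v + ε) C A f * WS (fun v => x v + ε) C U (fun _ => 1) := by
    intro ε hε
    exact WS_pos (x := fun v => x v + ε) (fun v => by have := hx v; positivity) C hA h hf
  have c1 : Continuous (fun ε : ℝ =>
      WS (fun v => x v + ε) C U f * WS (fun v => x v + ε) C A (fun _ => 1)) := by
    unfold WS
    fun_prop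
  have c2 : Continuous (fun ε : ℝ =>
      WS (fun v => x v + ε) C A f * WS (fun v => x v + ε) C U (fun _ => 1)) := by
    unfold WS
    fun_prop
  have h2 := ContinuousWithinAt.closure_le (s := Set.Ioi (0:ℝ)) (x := (0:ℝ))
    (by rw [closure_Ioi]; exact Set.self_mem_Ici) c1.continuousWithinAt c2.continuousWithinAt
    (fun ε hε => h1 ε hε)
  simpa using h2

/-- summation over the subsets of `insert a (insert b C)` of a function of the part in `C`. -/
theorem sumD (x : V → ℝ) {a b : V} {C : Finset V} (ha : a ∉ insert b C) (hb : b ∉ C)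
    (Q F : Finset V → ℝ) (β : ℕ → ℝ) (f : Finset V → ℝ)
    (hF0 : ∀ T ⊆ C, F T = f T) (hF1 : ∀ T ⊆ C, F (insert b T) = f T)
    (hF2 : ∀ T ⊆ C, F (insert a T) = f T) (hF3 : ∀ T ⊆ C, F (insert a (insert b T)) = f T)
    (h : ∀ T ⊆ C, Q T + x b * Q (insert b T) + (x a * Q (insert a T) +
      x a * (x b * Q (insert a (insert b T)))) = β T.card) :
    ∑ K ∈ (insert a (insert b C)).powerset, ((∏ v ∈ K, x v) * Q K) * F K =
      WS x C β f := by
  rw [Finset.sum_powerset_insert ha, Finset.sum_powerset_insert hb,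
    Finset.sum_powerset_insert hb]
  unfold WS
  rw [← Finset.sum_add_distrib, ← Finset.sum_add_distrib, ← Finset.sum_add_distrib]
  refine Finset.sum_congr rfl (fun T hT => ?_)
  rw [Finset.mem_powerset] at hT
  have hbT : b ∉ T := fun h => hb (hT h)
  have haT : a ∉ T := fun h => ha (Finset.mem_insert_of_mem (hT h))
  have hab : a ≠ b := fun h => ha (h ▸ Finset.mem_insert_self _ _)
  have habT : a ∉ insert b T := by
    rw [Finset.mem_insert]; tauto
  rw [hF0 T hT, hF1 T hT, hF2 T hT, hF3 T hT, Finset.prod_insert hbT, Finset.prod_insert haT,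
    Finset.prod_insert habT, Finset.prod_insert hbT, ← h T hT]
  ring

theorem main (r a b : V) (hab : a ≠ b) (har : a ≠ r) (hbr : b ≠ r) (x : V → ℝ) (w q : ℝ)
    (hx : ∀ v, 0 ≤ x v) (hw : 0 < w) (hq : 0 < q) (hq1 : q ≤ 1) (f : Finset V → ℝ)
    (hf : Monotone f) :
    (∑ S ∈ (⊤ : SimpleGraph V).edgeFinset.powerset with s(a, b) ∈ S,
        rcWeight r x w q S * f (openNbrs r S \ {a, b})) *
      (∑ S ∈ (⊤ : SimpleGraph V).edgeFinset.powerset, rcWeight r x w q S) ≤
    (∑ S ∈ (⊤ : SimpleGraph V).edgeFinset.powerset,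
        rcWeight r x w q S * f (openNbrs r S \ {a, b})) *
      (∑ S ∈ (⊤ : SimpleGraph V).edgeFinset.powerset with s(a, b) ∈ S, rcWeight r x w q S) := by
  set W : Finset V := Finset.univ.erase r with hW
  set C : Finset V := (W.erase a).erase b with hC
  have hbC : b ∉ C := by simp [hC]
  have haC : a ∉ insert b C := by
    rw [Finset.mem_insert]
    rintro (h | h)
    · exact hab h
    · simp [hC] at h
  have hWD : W = insert a (insert b C) := by
    ext u
    simp only [hW, hC, Finset.mem_erase, Finset.mem_insert, Finset.mem_univ, and_true]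
    constructor
    · intro h
      by_cases h2 : u = a
      · exact Or.inl h2
      · by_cases h3 : u = b
        · exact Or.inr (Or.inl h3)
        · exact Or.inr (Or.inr ⟨h3, h2, h⟩)
    · rintro (rfl | rfl | h)
      · exact har
      · exact hbr
      · exact h.2.2
  have hcard : W.card = C.card + 2 := by
    rw [hWD, Finset.card_insert_of_notMem haC, Finset.card_insert_of_notMem hbC]
  set N : ℕ := W.card with hN
  have hcompl : ({r} : Finset V)ᶜ = W := by
    ext u; simp [hW]
  have hCW : C ⊆ W := by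
    intro u hu
    rw [hWD]
    simp [hu]
  have haW : a ∈ W := by simp [hW, har]
  have hbW : b ∈ W := by simp [hW, hbr]
  have psi := fun (T : Finset V) (hT : T ⊆ W) =>
    PkPSI.psi V q w N {r} T a b hw (by rw [hcompl]) (by rw [hcompl]; exact hT) hab
      (by rw [hcompl]; exact haW) (by rw [hcompl]; exact hbW)
  set c : ℝ := w / (1 + w) with hc
  have hc0 : 0 < c := by positivity
  have dis : ∀ T ⊆ C, a ∉ T ∧ b ∉ T := fun T hT =>
    ⟨fun h => haC (Finset.mem_insert_of_mem (hT h)), fun h => hbC (hT h)⟩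
  have psi0 : ∀ T ⊆ C, Psi q w {r} T a b = c * Yn q w N T.card := fun T hT =>
    (psi T (hT.trans hCW)).1 (dis T hT).1 (dis T hT).2
  have psi1 : ∀ T ⊆ C, Psi q w {r} (insert b T) a b = c * phi q w N (T.card + 2) := by
    intro T hT
    rw [(psi (insert b T) (Finset.insert_subset hbW (hT.trans hCW))).2
      (Or.inr (Finset.mem_insert_self _ _)),
      Finset.insert_idem, Finset.card_insert_of_notMem,
      Finset.card_insert_of_notMem (dis T hT).2]
    rw [Finset.mem_insert]
    have := (dis T hT).1
    tauto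
  have psi2 : ∀ T ⊆ C, Psi q w {r} (insert a T) a b = c * phi q w N (T.card + 2) := by
    intro T hT
    rw [(psi (insert a T) (Finset.insert_subset haW (hT.trans hCW))).2
      (Or.inl (Finset.mem_insert_self _ _)),
      Finset.insert_comm b a T, Finset.insert_idem, Finset.card_insert_of_notMem,
      Finset.card_insert_of_notMem (dis T hT).2]
    rw [Finset.mem_insert]
    have := (dis T hT).1
    tauto
  have psi3 : ∀ T ⊆ C, Psi q w {r} (insert a (insert b T)) a b =
      c * phi q w N (T.card + 2) := by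
    intro T hT
    rw [(psi (insert a (insert b T)) (Finset.insert_subset haW
      (Finset.insert_subset hbW (hT.trans hCW)))).2
      (Or.inl (Finset.mem_insert_self _ _)),
      Finset.insert_comm b a (insert b T), Finset.insert_idem, Finset.insert_idem,
      Finset.card_insert_of_notMem, Finset.card_insert_of_notMem (dis T hT).2]
    rw [Finset.mem_insert]
    have := (dis T hT).1
    tauto
  -- the function
  set F : Finset V → ℝ := fun K => f (K \ {a, b}) with hF
  have hF0 : ∀ T ⊆ C, F T = f T := by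
    intro T hT
    have := dis T hT
    simp only [hF]
    congr 1
    ext u
    simp only [mem_sdiff, mem_insert, mem_singleton]
    constructor
    · exact fun h => h.1
    · exact fun h => ⟨h, fun h2 => by
        rcases h2 with rfl | rfl
        · exact this.1 h
        · exact this.2 h⟩
  have hF1 : ∀ T ⊆ C, F (insert b T) = f T := by
    intro T hT
    rw [← hF0 T hT]
    simp only [hF]
    congr 1
    ext u
    simp only [mem_sdiff, mem_insert, mem_singleton]
    tauto
  have hF2 : ∀ T ⊆ C, F (insert a T) = f T := by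
    intro T hT
    rw [← hF0 T hT]
    simp only [hF]
    congr 1
    ext u
    simp only [mem_sdiff, mem_insert, mem_singleton]
    tauto
  have hF3 : ∀ T ⊆ C, F (insert a (insert b T)) = f T := by
    intro T hT
    rw [← hF0 T hT]
    simp only [hF]
    congr 1
    ext u
    simp only [mem_sdiff, mem_insert, mem_singleton]
    tauto
  -- the four sums
  have total : ∀ (G g : Finset V → ℝ), (∀ T ⊆ C, G T = g T) → (∀ T ⊆ C, G (insert b T) = g T) →
      (∀ T ⊆ C, G (insert a T) = g T) → (∀ T ⊆ C, G (insert a (insert b T)) = g T) →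
      ∑ S ∈ (⊤ : SimpleGraph V).edgeFinset.powerset, rcWeight r x w q S * G (openNbrs r S) =
      q * WS x C (An q w N (x a) (x b)) g := by
    intro G g g0 g1 g2 g3
    have h1 := rcSum_eq r x w q G
    unfold rcSum at h1
    rw [h1]
    congr 1
    rw [← hW, ← hN, hWD]
    refine sumD x haC hbC (fun K => phi q w N K.card) G _ g g0 g1 g2 g3 (fun T hT => ?_)
    have d := dis T hT
    rw [Finset.card_insert_of_notMem d.2, Finset.card_insert_of_notMem d.1,
      Finset.card_insert_of_notMem (s := insert b T) (by rw [Finset.mem_insert]; tauto),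
      Finset.card_insert_of_notMem d.2]
    unfold An
    ring
  have totab : ∀ (G g : Finset V → ℝ), (∀ T ⊆ C, G T = g T) → (∀ T ⊆ C, G (insert b T) = g T) →
      (∀ T ⊆ C, G (insert a T) = g T) → (∀ T ⊆ C, G (insert a (insert b T)) = g T) →
      ∑ S ∈ (⊤ : SimpleGraph V).edgeFinset.powerset with s(a, b) ∈ S,
        rcWeight r x w q S * G (openNbrs r S) =
      (q * c) * WS x C (Un q w N (x a) (x b)) g := by
    intro G g g0 g1 g2 g3
    rw [PkNCS.sum_ab r a b har hbr x w q G, mul_assoc]
    congr 1
    rw [← hW, hWD]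
    rw [sumD x haC hbC (fun K => Psi q w {r} K a b) G (fun k => c * Un q w N (x a) (x b) k) g
      g0 g1 g2 g3 (fun T hT => ?_)]
    · unfold WS
      rw [Finset.mul_sum]
      refine Finset.sum_congr rfl (fun T _ => ?_)
      ring
    · beta_reduce
      rw [psi0 T hT, psi1 T hT, psi2 T hT, psi3 T hT]
      unfold Un
      ring
  have s1 := totab F f hF0 hF1 hF2 hF3
  have s2 := total F f hF0 hF1 hF2 hF3
  have s3 := totab (fun _ => 1) (fun _ => 1) (fun _ _ => rfl) (fun _ _ => rfl) (fun _ _ => rfl)
    (fun _ _ => rfl)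
  have s4 := total (fun _ => 1) (fun _ => 1) (fun _ _ => rfl) (fun _ _ => rfl) (fun _ _ => rfl)
    (fun _ _ => rfl)
  simp only [mul_one] at s3 s4
  simp only [hF] at s1 s2
  rw [s1, s2, s3, s4]
  have key := WS_nonneg hx C (A := An q w N (x a) (x b)) (U := Un q w N (x a) (x b)) (fun k => by
      have p0 := phi_pos hq hw.le N k
      have p1 := phi_pos hq hw.le N (k + 1)
      have p2 := phi_pos hq hw.le N (k + 2)
      have ha0 := hx a
      have hb0 := hx b
      unfold An
      positivity)
    (fun k hk => PkMONO.mono q w hq hq1 hw (fun M hM => PkPSI.jb q w hq hq1 hw M hM)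
      (PkYB.yb PkPSI.psi q w hq hw) N (by omega) (x a) (x b) (hx a) (hx b) k (by omega)) hf
  have h0 : 0 ≤ q * q * c := by positivity
  have h2 := mul_le_mul_of_nonneg_left key h0
  nlinarith

end KN.Star
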